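import Mathlib

set_option autoImplicit false

/-!
# Idempotent operations on a linked exchange incidence structure
-/

namespace Pool.Agent.Helper57.Idem

section Core

variable {L R : Type*} {I : L → R → Prop}

/-- hypotheses on the incidence relation between points and blocks -/
structure Hyp (I : L → R → Prop) : Prop where
  link : ∀ x y, ∃ u, I x u ∧ I y u
  exch : ∀ x y z, x ≠ y → x ≠ z → (∀ u, I x u → I y u → I z u) → ∀ u, I x u → I z u → I y u
  sepL : ∀ x y, x ≠ y → ∃ u, I x u ∧ ¬ I y u
  sepR : ∀ u v, u ≠ v → ∃ x, I x u ∧ ¬ I x v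

/-- idempotent pair of operations preserving incidence -/
structure Op (I : L → R → Prop) (a : L → L → L) (b : R → R → R) : Prop where
  ida : ∀ x, a x x = x
  idb : ∀ u, b u u = u
  pres : ∀ x y u v, I x u → I y v → I (a x y) (b u v)

variable {a : L → L → L} {b : R → R → R}

theorem Op.swap (o : Op I a b) : Op I (fun x y => a y x) (fun u v => b v u) :=
  ⟨o.ida, o.idb, fun x y u v h1 h2 => o.pres y x v u h2 h1⟩

theorem ne_of_inc {x y : L} {C : R} (hx : ¬ I x C) (hy : I y C) : x ≠ y := by
  rintro rfl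
  exact hx hy

theorem lineL (h : Hyp I) (o : Op I a b) {x y : L} (hxy : x ≠ y) (hp : a x y ≠ x) {u : R}
    (hx : I x u) (hpu : I (a x y) u) : I y u := by
  refine h.exch x y (a x y) hxy hp.symm (fun w h1 h2 => ?_) u hx hpu
  have h3 := o.pres x y w w h1 h2
  rwa [o.idb] at h3

theorem lineR (h : Hyp I) (o : Op I a b) {x y : L} (hxy : x ≠ y) (hp : a x y ≠ y) {u : R}
    (hy : I y u) (hpu : I (a x y) u) : I x u :=
  lineL h o.swap hxy.symm hp hy hpu

/-- a row without fixed value at a block that misses `x` -/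
theorem row (h : Hyp I) (o : Op I a b) (x : L) (C : R) (hC : ¬ I x C)
    (hne : ∀ y, I y C → a x y ≠ x) :
    (∀ y, I y C → a x y = y) ∧ ∀ B, I x B → b B C = C := by
  have hx : ∀ B, I x B → ¬ I x (b B C) := by
    intro B hB hD
    have hsub : ∀ y, I y C → I y (b B C) := fun y hy =>
      lineL h o (ne_of_inc hC hy) (hne y hy) hD (o.pres x y B C hB hy)
    by_cases hE : C = b B C
    · rw [← hE] at hD
      exact hC hD
    · obtain ⟨t, ht, ht'⟩ := h.sepR C (b B C) hE
      exact ht' (hsub t ht)
  have hy : ∀ y, I y C → a x y = y := by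
    intro t ht
    obtain ⟨B, hB, hBt⟩ := h.link x t
    by_contra hne'
    have htD : I t (b B C) := by
      have h3 := o.pres t t B C hBt ht
      rwa [o.ida] at h3
    exact hx B hB (lineR h o (ne_of_inc hC ht) hne' htD (o.pres x t B C hB ht))
  refine ⟨hy, fun B hB => ?_⟩
  by_contra hE
  obtain ⟨t, ht, ht'⟩ := h.sepR C (b B C) (Ne.symm hE)
  have h3 := o.pres x t B C hB ht
  rw [hy t ht] at h3
  exact ht' h3

/-- no mixed rows -/
theorem nomix (h : Hyp I) (o : Op I a b) (x : L) (C : R) (hC : ¬ I x C) {t : L} (ht : I t C)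
    (hxt : a x t = x) {y : L} (hyC : I y C) : a x y = x := by
  by_contra hy
  have key : ∀ B, I x B → I t B → I y B := by
    intro B hB hBt
    have hxD : I x (b B C) := by
      have h3 := o.pres x t B C hB ht
      rwa [hxt] at h3
    have hyD : I y (b B C) :=
      lineL h o (ne_of_inc hC hyC) hy hxD (o.pres x y B C hB hyC)
    have hne : C ≠ b B C := fun e => hC (by rw [e]; exact hxD)
    obtain ⟨t', ht', ht'D⟩ := h.sepR C (b B C) hne
    have ht'B : ¬ I t' B := fun hh => ht'D (by
      have h3 := o.pres t' t' B C hh ht'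
      rwa [o.ida] at h3)
    have hBC : b B C = B := by
      refine (row h o.swap t' B ht'B fun x1 hx1 he => ?_).2 C ht'
      have h3 := o.pres x1 t' B C hx1 ht'
      have he' : a x1 t' = t' := he
      rw [he'] at h3
      exact ht'D h3
    rwa [hBC] at hyD
  have hty : t ≠ y := by
    rintro rfl
    exact hy hxt
  have htx : t ≠ x := by
    rintro rfl
    exact hC ht
  exact hC (h.exch t x y htx hty (fun u htu hxu => key u hxu htu) C ht hyC)

theorem types (h : Hyp I) (o : Op I a b) {x y : L} (hxy : x ≠ y) : a x y = x ∨ a x y = y := by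
  obtain ⟨C, hyC, hxC⟩ := h.sepL y x hxy.symm
  by_cases hex : ∃ t, I t C ∧ a x t = x
  · obtain ⟨t, ht, hxt⟩ := hex
    exact Or.inl (nomix h o x C hxC ht hxt hyC)
  · push Not at hex
    exact Or.inr ((row h o x C hxC hex).1 y hyC)

/-- there is a point outside the line of `x` and `y`, on a block with `y` that misses `x` -/
theorem third (h : Hyp I) {x y : L} (hxy : x ≠ y) :
    ∃ B C w, I x B ∧ I y B ∧ I y C ∧ ¬ I x C ∧ I w C ∧ ¬ I w B := by
  obtain ⟨B, hB, hyB⟩ := h.link x y
  obtain ⟨C, hyC, hxC⟩ := h.sepL y x hxy.symm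
  have hne : C ≠ B := fun e => hxC (e ▸ hB)
  obtain ⟨w, hw, hwB⟩ := h.sepR C B hne
  exact ⟨B, C, w, hB, hyB, hyC, hxC, hw, hwB⟩

theorem rowconst (h : Hyp I) (o : Op I a b) {x y y' : L} (hxy : x ≠ y) (hxy' : x ≠ y')
    (ha : a x y = x) : a x y' = x := by
  by_cases hyy : y = y'
  · rw [← hyy]
    exact ha
  by_cases hc : ∃ C, I y C ∧ I y' C ∧ ¬ I x C
  · obtain ⟨C, h1, h2, h3⟩ := hc
    exact nomix h o x C h3 h1 ha h2
  have hcol : ∀ C, I y C → I y' C → I x C := by
    intro C h1 h2
    by_contra h3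
    exact hc ⟨C, h1, h2, h3⟩
  obtain ⟨B, C, w, hxB, hyB, hyC, hxC, hwC, hwB⟩ := third h hxy
  have haw : a x w = x := nomix h o x C hxC hyC ha hwC
  have hy'B : I y' B := h.exch y y' x hyy hxy.symm hcol B hyB hxB
  have hwy' : y' ≠ w := by
    rintro rfl
    exact hwB hy'B
  by_contra hne
  have hcol2 : ∀ C2, I w C2 → I y' C2 → I x C2 := by
    intro C2 h1 h2
    by_contra h3
    exact hne (nomix h o x C2 h3 h1 haw h2)
  exact hwB (h.exch y' w x hwy' hxy'.symm (fun u h1 h2 => hcol2 u h2 h1) B hy'B hxB)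

theorem core (h : Hyp I) (o : Op I a b) :
    ((∀ x y, a x y = x) ∧ ∀ u v, b u v = u) ∨ ((∀ x y, a x y = y) ∧ ∀ u v, b u v = v) := by
  by_cases hex : ∃ x0 y0, x0 ≠ y0 ∧ a x0 y0 = x0
  · left
    obtain ⟨x0, y0, h0, ha0⟩ := hex
    have c1 : ∀ y, x0 ≠ y → a x0 y = x0 := fun y hy => rowconst h o h0 hy ha0
    have c2 : ∀ x y, x0 ≠ y → x ≠ y → a x y = x := by
      intro x y hy hxy
      rcases types h o hxy with h1 | h1
      · exact h1
      · exfalso
        have h2 := rowconst h o.swap (x := y) (y := x) (y' := x0) hxy.symm hy.symm h1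
        have h3 : a x0 y = y := h2
        rw [c1 y hy] at h3
        exact hy h3
    have c3 : ∀ x y, x ≠ y → a x y = x := by
      intro x y hxy
      by_cases hy : x0 = y
      · subst hy
        obtain ⟨B, C, w, hxB, hyB, hyC, hxC, hwC, hwB⟩ := third h hxy
        have hw1 : x0 ≠ w := by
          rintro rfl
          exact hwB hyB
        have hw2 : x ≠ w := by
          rintro rfl
          exact hxC hwC
        exact rowconst h o hw2 hxy (c2 x w hw1 hw2)
      · exact c2 x y hy hxy
    refine ⟨fun x y => ?_, fun u v => ?_⟩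
    · by_cases hxy : x = y
      · rw [hxy, o.ida]
      · exact c3 x y hxy
    · by_cases huv : u = v
      · rw [huv, o.idb]
      · obtain ⟨y, hy, hyu⟩ := h.sepR v u (Ne.symm huv)
        refine (row h o.swap y u hyu fun x1 hx1 he => ?_).2 v hy
        have hne : x1 ≠ y := by
          rintro rfl
          exact hyu hx1
        have he' : a x1 y = y := he
        rw [c3 x1 y hne] at he'
        exact hne he'
  · right
    have c3 : ∀ x y, x ≠ y → a x y = y := by
      intro x y hxy
      rcases types h o hxy with h1 | h1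
      · exact absurd ⟨x, y, hxy, h1⟩ hex
      · exact h1
    refine ⟨fun x y => ?_, fun u v => ?_⟩
    · by_cases hxy : x = y
      · rw [hxy, o.ida]
      · exact c3 x y hxy
    · by_cases huv : u = v
      · rw [huv, o.idb]
      · obtain ⟨x, hx, hxv⟩ := h.sepR u v huv
        refine (row h o x v hxv fun y hy he => ?_).2 u hx
        have hne : x ≠ y := by
          rintro rfl
          exact hxv hy
        rw [c3 x y hne] at he
        exact hne he.symm

end Core

end Pool.Agent.Helper57.Idem
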