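import Mathlib
import Pool.Agent.Helper57.Idem.Core

set_option autoImplicit false

/-!
# Idempotent operations on incidence structures with local exchange and the nearest span property
-/

namespace Pool.Agent.Helper57.Idem

section CoreG

variable {L R : Type*} {I : L → R → Prop}

/-- two points on a common block -/
def Coh (I : L → R → Prop) (x y : L) : Prop := ∃ u, I x u ∧ I y u

/-- at most `k` steps from `x` to `y` -/
def Near (I : L → R → Prop) : ℕ → L → L → Prop
  | 0, x, y => x = y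
  | k + 1, x, y => ∃ z, Near I k x z ∧ Coh I z y

theorem Coh.symm {x y : L} (h : Coh I x y) : Coh I y x := by
  obtain ⟨u, h1, h2⟩ := h
  exact ⟨u, h2, h1⟩

theorem near_one {x y : L} : Near I 1 x y ↔ Coh I x y := by
  constructor
  · rintro ⟨z, hz, h⟩
    have hz' : x = z := hz
    rw [hz']
    exact h
  · intro h
    exact ⟨x, rfl, h⟩

theorem near_add {j k : ℕ} {x y z : L} (h1 : Near I j x y) (h2 : Near I k y z) :
    Near I (j + k) x z := by
  induction k generalizing z with
  | zero =>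
    have h3 : y = z := h2
    rw [← h3]
    exact h1
  | succ k ih =>
    obtain ⟨w, hw, hc⟩ := h2
    exact ⟨w, ih hw, hc⟩

theorem near_symm {k : ℕ} {x y : L} (h : Near I k x y) : Near I k y x := by
  induction k generalizing x y with
  | zero =>
    have h3 : x = y := h
    exact h3.symm
  | succ k ih =>
    obtain ⟨w, hw, hc⟩ := h
    have h1 := near_add (near_one.2 hc.symm) (ih hw)
    rwa [add_comm] at h1

/-- hypotheses on the incidence relation between points and blocks -/
structure HypG (I : L → R → Prop) : Prop where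
  conn : ∀ x y, ∃ k, Near I k x y
  exch : ∀ x y z, x ≠ y → x ≠ z → Coh I x y → (∀ u, I x u → I y u → I z u) →
    ∀ u, I x u → I z u → I y u
  span : ∀ k y B D, ¬ I y B → (∃ x, I x B ∧ Near I k x y) →
    (∀ x, I x B → Near I k x y → I x D) → ∀ x, I x B → I x D
  sepL : ∀ x y, x ≠ y → ∃ u, I x u ∧ ¬ I y u
  sepR : ∀ u v, u ≠ v → ∃ x, I x u ∧ ¬ I x v

variable {a : L → L → L} {b : R → R → R}

theorem lineLG (h : HypG I) (o : Op I a b) {x y : L} (hxy : x ≠ y) (hc : Coh I x y)
    (hp : a x y ≠ x) {u : R} (hx : I x u) (hpu : I (a x y) u) : I y u := by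
  refine h.exch x y (a x y) hxy hp.symm hc (fun w h1 h2 => ?_) u hx hpu
  have h3 := o.pres x y w w h1 h2
  rwa [o.idb] at h3

theorem lineRG (h : HypG I) (o : Op I a b) {x y : L} (hxy : x ≠ y) (hc : Coh I x y)
    (hp : a x y ≠ y) {u : R} (hy : I y u) (hpu : I (a x y) u) : I x u :=
  lineLG h o.swap hxy.symm hc.symm hp hy hpu

theorem span1 (h : HypG I) {x : L} {C D : R} (hC : ¬ I x C) (hex : ∃ y, I y C ∧ Coh I x y)
    (hD : ∀ y, I y C → Coh I x y → I y D) : C = D := by
  by_contra hne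
  obtain ⟨t, ht, htD⟩ := h.sepR C D hne
  obtain ⟨y, hy, hc⟩ := hex
  exact htD (h.span 1 x C D hC ⟨y, hy, near_one.2 hc.symm⟩
    (fun y hy hn => hD y hy (near_one.1 hn).symm) t ht)

theorem rowG (h : HypG I) (o : Op I a b) (x : L) (C : R) (hC : ¬ I x C)
    (hex : ∃ y, I y C ∧ Coh I x y) (hne : ∀ y, I y C → Coh I x y → a x y ≠ x) :
    (∀ y, I y C → Coh I x y → a x y = y) ∧ ∀ B, I x B → b B C = C := by
  have hx : ∀ B, I x B → ¬ I x (b B C) := by
    intro B hB hD
    have h1 : C = b B C := span1 h hC hex fun y hy hc =>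
      lineLG h o (ne_of_inc hC hy) hc (hne y hy hc) hD (o.pres x y B C hB hy)
    rw [← h1] at hD
    exact hC hD
  have hy : ∀ y, I y C → Coh I x y → a x y = y := by
    intro t ht hct
    obtain ⟨B, hB, hBt⟩ := hct
    by_contra hne'
    have htD : I t (b B C) := by
      have h3 := o.pres t t B C hBt ht
      rwa [o.ida] at h3
    exact hx B hB (lineRG h o (ne_of_inc hC ht) ⟨B, hB, hBt⟩ hne' htD
      (o.pres x t B C hB ht))
  refine ⟨hy, fun B hB => ?_⟩
  refine (span1 h hC hex fun y hy' hc => ?_).symm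
  have h3 := o.pres x y B C hB hy'
  rwa [hy y hy' hc] at h3

theorem nomixG (h : HypG I) (o : Op I a b) (x : L) (C : R) (hC : ¬ I x C) {t : L} (ht : I t C)
    (hct : Coh I x t) (hxt : a x t = x) {y : L} (hyC : I y C) (hcy : Coh I x y) :
    a x y = x := by
  by_contra hy
  have key : ∀ B, I x B → I t B → I y B := by
    intro B hB hBt
    have hxD : I x (b B C) := by
      have h3 := o.pres x t B C hB ht
      rwa [hxt] at h3
    have hyD : I y (b B C) :=
      lineLG h o (ne_of_inc hC hyC) hcy hy hxD (o.pres x y B C hB hyC)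
    have hne : C ≠ b B C := by
      intro e
      rw [← e] at hxD
      exact hC hxD
    have hex : ∃ t', I t' C ∧ Coh I x t' ∧ ¬ I t' (b B C) := by
      by_contra hcon
      push Not at hcon
      exact hne (span1 h hC ⟨t, ht, hct⟩ hcon)
    obtain ⟨t', ht', hct', ht'D⟩ := hex
    have ht'B : ¬ I t' B := fun hh => ht'D (by
      have h3 := o.pres t' t' B C hh ht'
      rwa [o.ida] at h3)
    have hBC : b B C = B := by
      refine (rowG h o.swap t' B ht'B ⟨x, hB, hct'.symm⟩ fun x1 hx1 _ he => ?_).2 C ht'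
      have h3 := o.pres x1 t' B C hx1 ht'
      have he' : a x1 t' = t' := he
      rw [he'] at h3
      exact ht'D h3
    rwa [hBC] at hyD
  have hty : t ≠ y := by
    rintro rfl
    exact hy hxt
  have htx : t ≠ x := by
    rintro rfl
    exact hC ht
  exact hC (h.exch t x y htx hty hct.symm (fun u htu hxu => key u hxu htu) C ht hyC)

theorem typesG (h : HypG I) (o : Op I a b) {x y : L} (hxy : x ≠ y) (hc : Coh I x y) :
    a x y = x ∨ a x y = y := by
  obtain ⟨C, hyC, hxC⟩ := h.sepL y x hxy.symm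
  by_cases hex : ∃ t, I t C ∧ Coh I x t ∧ a x t = x
  · obtain ⟨t, ht, hct, hxt⟩ := hex
    exact Or.inl (nomixG h o x C hxC ht hct hxt hyC hc)
  · push Not at hex
    exact Or.inr ((rowG h o x C hxC ⟨y, hyC, hc⟩ hex).1 y hyC hc)

/-- the type of a pair of intersecting blocks -/
theorem beta (h : HypG I) (o : Op I a b) {B C : R} (hBC : B ≠ C) {z : L} (hzB : I z B)
    (hzC : I z C) :
    (b B C = B ∧ (∀ x, I x B → ¬ I x C → a x z = x) ∧ ∀ y, I y C → ¬ I y B → a z y = z) ∨
    (b B C = C ∧ (∀ x, I x B → ¬ I x C → a x z = z) ∧ ∀ y, I y C → ¬ I y B → a z y = y) := by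
  by_cases hex : ∃ x, I x B ∧ ¬ I x C ∧ a x z = z
  · right
    obtain ⟨x, hx, hxC, hxz⟩ := hex
    have hxz' : x ≠ z := ne_of_inc hxC hzC
    have hcoh : Coh I x z := ⟨B, hx, hzB⟩
    have h1 : b B C = C := by
      refine (rowG h o x C hxC ⟨z, hzC, hcoh⟩ fun y hy hc he => ?_).2 B hx
      have h2 := nomixG h o x C hxC hy hc he hzC hcoh
      rw [hxz] at h2
      exact hxz' h2.symm
    refine ⟨h1, fun x' hx' hx'C => ?_, fun y hy hyB => ?_⟩
    · rcases typesG h o (ne_of_inc hx'C hzC) ⟨B, hx', hzB⟩ with h2 | h2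
      · exfalso
        have h3 := o.pres x' z B C hx' hzC
        rw [h2, h1] at h3
        exact hx'C h3
      · exact h2
    · rcases typesG h o (ne_of_inc hyB hzB).symm ⟨C, hzC, hy⟩ with h2 | h2
      · exfalso
        have h3 : b B C = B := by
          refine (rowG h o.swap y B hyB ⟨z, hzB, ⟨C, hy, hzC⟩⟩ fun x1 hx1 hc1 he => ?_).2 C hy
          have h4 := nomixG h o.swap y B hyB hx1 hc1 he hzB ⟨C, hy, hzC⟩
          have h5 : a z y = y := h4
          rw [h2] at h5
          exact (ne_of_inc hyB hzB) h5.symm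
        exact hBC (h3.symm.trans h1)
      · exact h2
  · left
    have hx : ∀ x, I x B → ¬ I x C → a x z = x := by
      intro x hx hxC
      rcases typesG h o (ne_of_inc hxC hzC) ⟨B, hx, hzB⟩ with h2 | h2
      · exact h2
      · exact absurd ⟨x, hx, hxC, h2⟩ hex
    have h1 : b B C = B := by
      by_contra hne
      obtain ⟨t, ht, ht'⟩ := h.sepR B (b B C) (Ne.symm hne)
      by_cases htC : I t C
      · have h3 := o.pres t t B C ht htC
        rw [o.ida] at h3
        exact ht' h3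
      · have h3 := o.pres t z B C ht hzC
        rw [hx t ht htC] at h3
        exact ht' h3
    refine ⟨h1, hx, fun y hy hyB => ?_⟩
    rcases typesG h o (ne_of_inc hyB hzB).symm ⟨C, hzC, hy⟩ with h2 | h2
    · exact h2
    · exfalso
      have h3 := o.pres z y B C hzB hy
      rw [h2, h1] at h3
      exact hyB h3

theorem tri1 (h : HypG I) (o : Op I a b) {B C : R} {x y z : L} (hxB : I x B) (hzB : I z B)
    (hzC : I z C) (hyC : I y C) (hxC : ¬ I x C) (hyB : ¬ I y B) :
    a x z = x ↔ a z y = z := by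
  have hBC : B ≠ C := by
    rintro rfl
    exact hxC hxB
  rcases beta h o hBC hzB hzC with ⟨-, h1, h2⟩ | ⟨-, h1, h2⟩
  · exact ⟨fun _ => h2 y hyC hyB, fun _ => h1 x hxB hxC⟩
  · constructor
    · intro h3
      rw [h1 x hxB hxC] at h3
      exact absurd h3.symm (ne_of_inc hxC hzC)
    · intro h3
      rw [h2 y hyC hyB] at h3
      exact absurd h3 (ne_of_inc hyB hzB)

theorem tri2 (h : HypG I) (o : Op I a b) {B C : R} {x y z : L} (hxB : I x B) (hzB : I z B)
    (hzC : I z C) (hyC : I y C) (hxC : ¬ I x C) (hyB : ¬ I y B) (hc : Coh I x y) :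
    a x y = x ↔ a z y = z := by
  have hBC : B ≠ C := by
    rintro rfl
    exact hxC hxB
  have h4 := o.pres x y B C hxB hyC
  rcases beta h o hBC hzB hzC with ⟨h0, -, h2⟩ | ⟨h0, -, h2⟩
  · refine ⟨fun _ => h2 y hyC hyB, fun _ => ?_⟩
    rcases typesG h o (ne_of_inc hxC hyC) hc with h3 | h3
    · exact h3
    · rw [h3, h0] at h4
      exact absurd h4 hyB
  · constructor
    · intro h3
      rw [h3, h0] at h4
      exact absurd h4 hxC
    · intro h3
      rw [h2 y hyC hyB] at h3
      exact absurd h3 (ne_of_inc hyB hzB)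

/-- two blocks and a point for a pair of points -/
theorem wedge (h : HypG I) {z x : L} (hzx : z ≠ x) (hc : Coh I z x) :
    ∃ B C w, I z B ∧ I x B ∧ I z C ∧ ¬ I x C ∧ I w C ∧ ¬ I w B := by
  obtain ⟨B, hzB, hxB⟩ := hc
  obtain ⟨C, hzC, hxC⟩ := h.sepL z x hzx
  have hne : C ≠ B := by
    rintro rfl
    exact hxC hxB
  obtain ⟨w, hwC, hwB⟩ := h.sepR C B hne
  exact ⟨B, C, w, hzB, hxB, hzC, hxC, hwC, hwB⟩

theorem symT (h : HypG I) (o : Op I a b) {z x : L} (hzx : z ≠ x) (hc : Coh I z x) :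
    a x z = x ↔ a z x = z := by
  obtain ⟨B, C, w, hzB, hxB, hzC, hxC, hwC, hwB⟩ := wedge h hzx hc
  have hex : ∃ x', I x' B ∧ Coh I x' w ∧ ¬ I x' C := by
    by_contra hcon
    push Not at hcon
    exact hxC (h.span 1 w B C hwB ⟨z, hzB, near_one.2 ⟨C, hzC, hwC⟩⟩
      (fun x' hx' hn => hcon x' hx' (near_one.1 hn)) x hxB)
  obtain ⟨x', hx'B, hcx', hx'C⟩ := hex
  have hex2 : ∃ n, I x' n ∧ I w n ∧ ¬ I z n := by
    by_contra hcon
    push Not at hcon
    exact hwB (h.exch x' w z (ne_of_inc hwB hx'B).symm (ne_of_inc hx'C hzC) hcx'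
      (fun u h1 h2 => hcon u h1 h2) B hx'B hzB)
  obtain ⟨n, hx'n, hwn, hzn⟩ := hex2
  have e1 := tri1 h o hxB hzB hzC hwC hxC hwB
  have e3 := tri1 h o hwC hzC hzB hxB hwB hxC
  have e4 := tri1 h o hwC hzC hzB hx'B hwB hx'C
  have e5 := tri2 h o hzB hx'B hx'n hwn hzn hwB ⟨C, hzC, hwC⟩
  have e6 := tri1 h o hzB hx'B hx'n hwn hzn hwB
  rw [e1, e5, ← e6, ← e4, e3]

theorem constT (h : HypG I) (o : Op I a b) {z x y : L} (hzx : z ≠ x) (hzy : z ≠ y)
    (hcx : Coh I z x) (hcy : Coh I z y) (hT : a z x = z) : a z y = z := by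
  by_cases hcol : ∀ u, I z u → I x u → I y u
  · obtain ⟨B, C, w, hzB, hxB, hzC, hxC, hwC, hwB⟩ := wedge h hzx hcx
    have hyB : I y B := hcol B hzB hxB
    have hyC : ¬ I y C := fun hh => hxC (h.exch z x y hzx hzy hcx hcol C hzC hh)
    have e1 := tri1 h o hxB hzB hzC hwC hxC hwB
    have e2 := tri1 h o hwC hzC hzB hyB hwB hyC
    have e3 := symT h o (ne_of_inc hwB hzB).symm ⟨C, hzC, hwC⟩
    have e4 := symT h o hzx hcx
    exact e2.1 (e3.2 (e1.1 (e4.2 hT)))
  · push Not at hcol
    obtain ⟨B, hzB, hxB, hyB⟩ := hcol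
    have hex : ∃ C, I z C ∧ I y C ∧ ¬ I x C := by
      by_contra hcon
      push Not at hcon
      exact hyB (h.exch z y x hzy hzx hcy hcon B hzB hxB)
    obtain ⟨C, hzC, hyC, hxC⟩ := hex
    exact (tri1 h o hxB hzB hzC hyC hxC hyB).1 ((symT h o hzx hcx).2 hT)

theorem allT (h : HypG I) (o : Op I a b) {z0 x0 : L} (h0 : z0 ≠ x0) (hc0 : Coh I z0 x0)
    (hT : a z0 x0 = z0) : ∀ z x, z ≠ x → Coh I z x → a z x = z := by
  have key : ∀ k z, Near I k z0 z → ∀ x, z ≠ x → Coh I z x → a z x = z := by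
    intro k
    induction k with
    | zero =>
      intro z hz x hzx hc
      have hz' : z0 = z := hz
      subst hz'
      exact constT h o h0 hzx hc0 hc hT
    | succ k ih =>
      intro z hz x hzx hc
      obtain ⟨z1, hz1, hc1⟩ := hz
      by_cases h1 : z1 = z
      · subst h1
        exact ih z1 hz1 x hzx hc
      · have h2 := ih z1 hz1 z h1 hc1
        have h3 : a z z1 = z := (symT h o h1 hc1).2 h2
        exact constT h o (Ne.symm h1) hzx hc1.symm hc h3
  intro z x hzx hc
  obtain ⟨k, hk⟩ := h.conn z0 z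
  exact key k z hk x hzx hc

theorem extend (h : HypG I) (o : Op I a b) (hall : ∀ z x, z ≠ x → Coh I z x → a z x = z) :
    (∀ x y, a x y = x) ∧ ∀ u v, b u v = u := by
  have hQ : ∀ k, (∀ x y, Near I k x y → a x y = x) → ∀ B C x z, I x B → I z C →
      Near I k x z → b B C = B := by
    intro k ih B C x z hxB hzC hn
    by_cases hBC : B = C
    · rw [hBC, o.idb]
    by_contra hne
    obtain ⟨t, ht, ht'⟩ := h.sepR B (b B C) (Ne.symm hne)
    by_cases hzB : I z B
    · obtain ⟨y', hy'C, hy'B⟩ := h.sepR C B (Ne.symm hBC)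
      refine ht' (h.span 1 y' B (b B C) hy'B ⟨z, hzB, near_one.2 ⟨C, hzC, hy'C⟩⟩
        (fun x' hx' hn' => ?_) t ht)
      have h3 := o.pres x' y' B C hx' hy'C
      rwa [hall x' y' (ne_of_inc hy'B hx').symm (near_one.1 hn')] at h3
    · refine ht' (h.span k z B (b B C) hzB ⟨x, hxB, hn⟩ (fun x' hx' hn' => ?_) t ht)
      have h3 := o.pres x' z B C hx' hzC
      rwa [ih x' z hn'] at h3
  have hP : ∀ k x y, Near I k x y → a x y = x := by
    intro k
    induction k with
    | zero =>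
      intro x y hxy
      have h1 : x = y := hxy
      rw [h1, o.ida]
    | succ k ih =>
      intro x y hxy
      obtain ⟨z, hz, C, hzC, hyC⟩ := hxy
      by_contra hne
      obtain ⟨B, hxB, haB⟩ := h.sepL x (a x y) (Ne.symm hne)
      have h1 := hQ k ih B C x z hxB hzC hz
      have h2 := o.pres x y B C hxB hyC
      rw [h1] at h2
      exact haB h2
  refine ⟨fun x y => ?_, fun u v => ?_⟩
  · obtain ⟨k, hk⟩ := h.conn x y
    exact hP k x y hk
  · by_cases huv : u = v
    · rw [huv, o.idb]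
    · obtain ⟨x, hx, -⟩ := h.sepR u v huv
      obtain ⟨y, hy, -⟩ := h.sepR v u (Ne.symm huv)
      obtain ⟨k, hk⟩ := h.conn x y
      exact hQ k (hP k) u v x y hx hy hk

theorem coreG (h : HypG I) (o : Op I a b) :
    ((∀ x y, a x y = x) ∧ ∀ u v, b u v = u) ∨ ((∀ x y, a x y = y) ∧ ∀ u v, b u v = v) := by
  by_cases hex : ∃ z0 x0, z0 ≠ x0 ∧ Coh I z0 x0 ∧ a z0 x0 = z0
  · left
    obtain ⟨z0, x0, h0, hc0, hT⟩ := hex
    exact extend h o (allT h o h0 hc0 hT)
  · right
    have h1 : ∀ z x, z ≠ x → Coh I z x → (fun x y => a y x) z x = z := by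
      intro z x hzx hc
      change a x z = z
      rcases typesG h o hzx.symm hc.symm with h2 | h2
      · exact absurd ⟨x, z, hzx.symm, hc.symm, h2⟩ hex
      · exact h2
    have h2 := extend h o.swap h1
    exact ⟨fun x y => h2.1 y x, fun u v => h2.2 v u⟩

end CoreG

end Pool.Agent.Helper57.Idem
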