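import Mathlib
import Pool.Agent.Helper70.IdemDefs
import Pool.Agent.Helper57.Idem.Core

set_option autoImplicit false

/-!
# Criterion for two linked equivalence relations with the exchange property
-/

namespace Pool.Agent.Helper57.Idem

open Pool.Agent.Helper70.IdemDefs

variable {E : Type*}

/-- the `θ`-class of `x` meets the `φ`-class of `u` -/
def Meets (θ φ : Setoid E) (x u : E) : Prop := ∃ e, θ x e ∧ φ u e

/-- any two `θ`-classes meet a common `φ`-class -/
def Linked (θ φ : Setoid E) : Prop := ∀ x y, ∃ u, Meets θ φ x u ∧ Meets θ φ y u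

/-- exchange: let the `θ`-class of `x` be different from the `θ`-classes of `y` and `z`; if every
`φ`-class that meets the `θ`-classes of `x` and `y` meets that of `z`, then every `φ`-class that
meets the `θ`-classes of `x` and `z` meets that of `y` -/
def Exchange (θ φ : Setoid E) : Prop :=
  ∀ x y z, ¬ θ x y → ¬ θ x z → (∀ u, Meets θ φ x u → Meets θ φ y u → Meets θ φ z u) →
    ∀ u, Meets θ φ x u → Meets θ φ z u → Meets θ φ y u

/-- the intersection is equality; for two different classes of one relation, some class of the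
other relation meets the first and misses the second -/
def Tight (θ φ : Setoid E) : Prop :=
  (∀ x y, θ x y → φ x y → x = y) ∧
  (∀ x y, ¬ θ x y → ∃ u, Meets θ φ x u ∧ ¬ Meets θ φ y u) ∧
  ∀ u v, ¬ φ u v → ∃ x, Meets θ φ x u ∧ ¬ Meets θ φ x v

theorem propertyP_of_tight {θ φ : Setoid E} (h1 : Linked θ φ) (h2 : Exchange θ φ)
    (h3 : Tight θ φ) : PropertyP {θ, φ} := by
  intro f hid hf
  have hθ : Preserves f θ := hf θ (by simp)
  have hφ : Preserves f φ := hf φ (by simp)
  let I : Quotient θ → Quotient φ → Prop := fun X U =>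
    ∃ e, Quotient.mk θ e = X ∧ Quotient.mk φ e = U
  have hI : ∀ x u, I (Quotient.mk θ x) (Quotient.mk φ u) ↔ Meets θ φ x u := by
    intro x u
    constructor
    · rintro ⟨e, he1, he2⟩
      exact ⟨e, θ.symm (Quotient.exact he1), φ.symm (Quotient.exact he2)⟩
    · rintro ⟨e, he1, he2⟩
      exact ⟨e, Quotient.sound (θ.symm he1), Quotient.sound (φ.symm he2)⟩
  have hneθ : ∀ x y, Quotient.mk θ x ≠ Quotient.mk θ y ↔ ¬ θ x y := by
    intro x y
    rw [ne_eq, Quotient.eq]
  have hneφ : ∀ x y, Quotient.mk φ x ≠ Quotient.mk φ y ↔ ¬ φ x y := by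
    intro x y
    rw [ne_eq, Quotient.eq]
  let a : Quotient θ → Quotient θ → Quotient θ :=
    Quotient.map₂ f (fun x x' hx y y' hy => hθ x x' y y' hx hy)
  let b : Quotient φ → Quotient φ → Quotient φ :=
    Quotient.map₂ f (fun x x' hx y y' hy => hφ x x' y y' hx hy)
  have hH : Hyp I := by
    refine ⟨?_, ?_, ?_, ?_⟩
    · intro X Y
      induction X using Quotient.inductionOn with | _ x => ?_
      induction Y using Quotient.inductionOn with | _ y => ?_
      obtain ⟨u, hu1, hu2⟩ := h1 x y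
      exact ⟨Quotient.mk φ u, (hI x u).2 hu1, (hI y u).2 hu2⟩
    · intro X Y Z
      induction X using Quotient.inductionOn with | _ x => ?_
      induction Y using Quotient.inductionOn with | _ y => ?_
      induction Z using Quotient.inductionOn with | _ z => ?_
      intro hxy hxz hall U
      induction U using Quotient.inductionOn with | _ u => ?_
      rw [hI, hI, hI]
      refine h2 x y z ((hneθ x y).1 hxy) ((hneθ x z).1 hxz) (fun w hw1 hw2 => ?_) u
      exact (hI z w).1 (hall _ ((hI x w).2 hw1) ((hI y w).2 hw2))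
    · intro X Y
      induction X using Quotient.inductionOn with | _ x => ?_
      induction Y using Quotient.inductionOn with | _ y => ?_
      intro hxy
      obtain ⟨u, hu1, hu2⟩ := h3.2.1 x y ((hneθ x y).1 hxy)
      exact ⟨Quotient.mk φ u, (hI x u).2 hu1, fun hh => hu2 ((hI y u).1 hh)⟩
    · intro U V
      induction U using Quotient.inductionOn with | _ u => ?_
      induction V using Quotient.inductionOn with | _ v => ?_
      intro huv
      obtain ⟨x, hx1, hx2⟩ := h3.2.2 u v ((hneφ u v).1 huv)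
      exact ⟨Quotient.mk θ x, (hI x u).2 hx1, fun hh => hx2 ((hI x v).1 hh)⟩
  have hO : Op I a b := by
    refine ⟨?_, ?_, ?_⟩
    · intro X
      induction X using Quotient.inductionOn with | _ x => ?_
      change Quotient.mk θ (f x x) = _
      rw [hid]
    · intro X
      induction X using Quotient.inductionOn with | _ x => ?_
      change Quotient.mk φ (f x x) = _
      rw [hid]
    · rintro X Y U V ⟨e, rfl, rfl⟩ ⟨e', rfl, rfl⟩
      exact ⟨f e e', rfl, rfl⟩
  rcases core hH hO with ⟨ha, hb⟩ | ⟨ha, hb⟩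
  · left
    intro x y
    refine h3.1 _ _ ?_ ?_
    · exact Quotient.exact (ha (Quotient.mk θ x) (Quotient.mk θ y))
    · exact Quotient.exact (hb (Quotient.mk φ x) (Quotient.mk φ y))
  · right
    intro x y
    refine h3.1 _ _ ?_ ?_
    · exact Quotient.exact (ha (Quotient.mk θ x) (Quotient.mk θ y))
    · exact Quotient.exact (hb (Quotient.mk φ x) (Quotient.mk φ y))

/-- the fold of a `θ`-class `x₀` into another one -/
theorem fold_theta {θ φ : Setoid E} (hP : PropertyP {θ, φ}) (x₀ y₀ : E) (hne : ¬ θ x₀ y₀) :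
    ∃ u, Meets θ φ x₀ u ∧ ¬ Meets θ φ y₀ u := by
  classical
  by_contra hcon
  push Not at hcon
  have hex : ∀ e, θ x₀ e → ∃ e', θ y₀ e' ∧ φ e e' := fun e he => hcon e ⟨e, he, φ.refl e⟩
  choose! g hg1 hg2 using hex
  let f : E → E → E := fun x y => if θ x₀ x ∧ ¬ θ x₀ y then g x else x
  have hf1 : ∀ x y, θ x₀ x → ¬ θ x₀ y → f x y = g x := fun x y h1 h2 => if_pos ⟨h1, h2⟩
  have hf2 : ∀ x y, ¬ (θ x₀ x ∧ ¬ θ x₀ y) → f x y = x := fun x y h => if_neg h
  have hPf := hP f (fun x => hf2 x x (fun h => h.2 h.1)) ?_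
  · rcases hPf with h | h
    · have h1 := h x₀ y₀
      rw [hf1 x₀ y₀ (θ.refl x₀) hne] at h1
      have h2 := hg1 x₀ (θ.refl x₀)
      rw [h1] at h2
      exact hne (θ.symm h2)
    · have h1 := h y₀ x₀
      rw [hf2 y₀ x₀ (fun hh => hh.2 (θ.refl x₀))] at h1
      exact hne (by rw [h1])
  · intro ψ hψ
    rcases hψ with rfl | hψ
    · intro x x' y y' hx hy
      by_cases h1 : ψ x₀ x ∧ ¬ ψ x₀ y
      · have h1' : ψ x₀ x' ∧ ¬ ψ x₀ y' :=
          ⟨ψ.trans h1.1 hx, fun h => h1.2 (ψ.trans h (ψ.symm hy))⟩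
        rw [hf1 x y h1.1 h1.2, hf1 x' y' h1'.1 h1'.2]
        exact ψ.trans (ψ.symm (hg1 x h1.1)) (hg1 x' h1'.1)
      · have h1' : ¬ (ψ x₀ x' ∧ ¬ ψ x₀ y') := fun h =>
          h1 ⟨ψ.trans h.1 (ψ.symm hx), fun h' => h.2 (ψ.trans h' hy)⟩
        rw [hf2 x y h1, hf2 x' y' h1']
        exact hx
    · obtain rfl : ψ = φ := hψ
      have key : ∀ x y, ψ x (f x y) := by
        intro x y
        by_cases h1 : θ x₀ x ∧ ¬ θ x₀ y
        · rw [hf1 x y h1.1 h1.2]
          exact hg2 x h1.1
        · rw [hf2 x y h1]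
      intro x x' y y' hx _
      exact ψ.trans (ψ.trans (ψ.symm (key x y)) hx) (key x' y')

theorem tight_of_propertyP {θ φ : Setoid E} (hP : PropertyP {θ, φ}) : Tight θ φ := by
  classical
  have hswap : PropertyP {φ, θ} := by
    rw [Set.pair_comm]
    exact hP
  refine ⟨?_, fold_theta hP, ?_⟩
  · intro e e' h1 h2
    by_contra hne
    let f : E → E → E := fun x y => if x = e ∧ y = e' then e' else x
    have hf2 : ∀ x y, ¬ (x = e ∧ y = e') → f x y = x := fun x y h => if_neg h
    have key : ∀ ψ : Setoid E, ψ e e' → ∀ x y, ψ x (f x y) := by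
      intro ψ hψ x y
      by_cases h : x = e ∧ y = e'
      · obtain ⟨rfl, rfl⟩ := h
        change ψ x (if _ then _ else _)
        rw [if_pos ⟨rfl, rfl⟩]
        exact hψ
      · rw [hf2 x y h]
    have hpres : ∀ ψ : Setoid E, ψ e e' → Preserves f ψ := by
      intro ψ hψ x x' y y' hx _
      exact ψ.trans (ψ.trans (ψ.symm (key ψ hψ x y)) hx) (key ψ hψ x' y')
    have hPf := hP f (fun x => hf2 x x (fun h => hne (h.1.symm.trans h.2))) ?_
    · rcases hPf with h | h
      · have h3 := h e e'
        have h4 : f e e' = e' := if_pos ⟨rfl, rfl⟩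
        rw [h4] at h3
        exact hne h3.symm
      · have h3 := h e' e
        rw [hf2 e' e (fun h => hne h.2)] at h3
        exact hne h3.symm
    · intro ψ hψ
      rcases hψ with rfl | hψ
      · exact hpres _ h1
      · obtain rfl : ψ = φ := hψ
        exact hpres _ h2
  · intro u v huv
    obtain ⟨x, ⟨e, he1, he2⟩, hx⟩ := fold_theta hswap u v huv
    refine ⟨x, ⟨e, he2, he1⟩, ?_⟩
    rintro ⟨e', h3, h4⟩
    exact hx ⟨e', h4, h3⟩

/-- the criterion -/
theorem criterion {θ φ : Setoid E} (h1 : Linked θ φ) (h2 : Exchange θ φ) :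
    PropertyP {θ, φ} ↔ Tight θ φ :=
  ⟨tight_of_propertyP, propertyP_of_tight h1 h2⟩

/-- a relation which is preserved by all maps that preserve the family -/
theorem propertyP_mono {F G : Set (Setoid E)} (hP : PropertyP G)
    (h : ∀ f : E → E → E, (∀ θ ∈ F, Preserves f θ) → ∀ θ ∈ G, Preserves f θ) : PropertyP F :=
  fun f hid hf => hP f hid (h f hf)

theorem preserves_sInf {S : Set (Setoid E)} {f : E → E → E} (h : ∀ θ ∈ S, Preserves f θ) :
    Preserves f (sInf S) := by
  intro x x' y y' hx hy θ hθ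
  exact h θ hθ _ _ _ _ (hx θ hθ) (hy θ hθ)

end Pool.Agent.Helper57.Idem
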