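import Mathlib
import Pool.Agent.Helper57.Idem.Crit

set_option autoImplicit false

/-!
# Pairwise balanced designs
-/

namespace Pool.Agent.Helper57.Idem

open Pool.Agent.Helper70.IdemDefs

/-- the incident pairs (flags) -/
abbrev Flag {A B : Type*} (I : A → B → Prop) : Type _ := {p : A × B // I p.1 p.2}

/-- same first component -/
def sameFst {A B : Type*} (I : A → B → Prop) : Setoid (Flag I) := Setoid.ker fun p => p.1.1

/-- same second component -/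
def sameSnd {A B : Type*} (I : A → B → Prop) : Setoid (Flag I) := Setoid.ker fun p => p.1.2

theorem meets_iff {A B : Type*} (I : A → B → Prop) (e u : Flag I) :
    Meets (sameFst I) (sameSnd I) e u ↔ I e.1.1 u.1.2 := by
  constructor
  · rintro ⟨w, h1, h2⟩
    have h1' : e.1.1 = w.1.1 := h1
    have h2' : u.1.2 = w.1.2 := h2
    rw [h1', h2']
    exact w.2
  · intro h
    exact ⟨⟨(e.1.1, u.1.2), h⟩, rfl, rfl⟩

variable {P : Type*}

/-- incidence of a point with a block of `𝓑` -/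
def BInc (𝓑 : Finset (Finset P)) (x : P) (B : Finset P) : Prop := B ∈ 𝓑 ∧ x ∈ B

open scoped Classical in
theorem pbd [Fintype P] [Nontrivial P] (𝓑 : Finset (Finset P)) (lam : ℕ)
    (hlam : 0 < lam) (hne : ∀ B ∈ 𝓑, B.Nonempty)
    (hB : ∀ x y : P, x ≠ y → (𝓑.filter fun B => x ∈ B ∧ y ∈ B).card = lam) :
    PropertyP {sameFst (BInc 𝓑), sameSnd (BInc 𝓑)} ↔
      (∀ B ∈ 𝓑, ∀ C ∈ 𝓑, B ⊆ C → B = C) ∧ Finset.univ ∉ 𝓑 := by
  have hcommon : ∀ x y : P, x ≠ y → ∃ D ∈ 𝓑, x ∈ D ∧ y ∈ D := by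
    intro x y hxy
    have h1 := hB x y hxy
    have h2 : (𝓑.filter fun B => x ∈ B ∧ y ∈ B).Nonempty := by
      rw [← Finset.card_pos, h1]
      exact hlam
    obtain ⟨D, hD⟩ := h2
    rw [Finset.mem_filter] at hD
    exact ⟨D, hD.1, hD.2⟩
  have hnefst : ∀ e e' : Flag (BInc 𝓑), ¬ sameFst (BInc 𝓑) e e' ↔ e.1.1 ≠ e'.1.1 :=
    fun e e' => Iff.rfl
  have hnesnd : ∀ e e' : Flag (BInc 𝓑), ¬ sameSnd (BInc 𝓑) e e' ↔ e.1.2 ≠ e'.1.2 :=
    fun e e' => Iff.rfl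
  have hlinked : Linked (sameFst (BInc 𝓑)) (sameSnd (BInc 𝓑)) := by
    intro e e'
    by_cases h : e.1.1 = e'.1.1
    · refine ⟨e, (meets_iff _ _ _).2 e.2, (meets_iff _ _ _).2 ?_⟩
      rw [← h]
      exact e.2
    · obtain ⟨D, hD, h1, h2⟩ := hcommon _ _ h
      exact ⟨⟨(e.1.1, D), hD, h1⟩, (meets_iff _ _ _).2 ⟨hD, h1⟩, (meets_iff _ _ _).2 ⟨hD, h2⟩⟩
  have hexch : Exchange (sameFst (BInc 𝓑)) (sameSnd (BInc 𝓑)) := by
    intro e e' e'' h1 h2 hall u hu1 hu2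
    rw [hnefst] at h1 h2
    rw [meets_iff] at hu1 hu2 ⊢
    have hsub : (𝓑.filter fun B => e.1.1 ∈ B ∧ e'.1.1 ∈ B) ⊆
        𝓑.filter fun B => e.1.1 ∈ B ∧ e''.1.1 ∈ B := by
      intro D hD
      rw [Finset.mem_filter] at hD ⊢
      refine ⟨hD.1, hD.2.1, ?_⟩
      have h3 := hall ⟨(e.1.1, D), hD.1, hD.2.1⟩ ((meets_iff _ _ _).2 ⟨hD.1, hD.2.1⟩)
        ((meets_iff _ _ _).2 ⟨hD.1, hD.2.2⟩)
      rw [meets_iff] at h3
      exact h3.2
    have heq := Finset.eq_of_subset_of_card_le hsub (by rw [hB _ _ h1, hB _ _ h2])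
    have hmem : u.1.2 ∈ 𝓑.filter fun B => e.1.1 ∈ B ∧ e''.1.1 ∈ B := by
      rw [Finset.mem_filter]
      exact ⟨hu1.1, hu1.2, hu2.2⟩
    rw [← heq, Finset.mem_filter] at hmem
    exact ⟨hmem.1, hmem.2.2⟩
  rw [criterion hlinked hexch]
  constructor
  · rintro ⟨-, hL, hR⟩
    have hanti : ∀ B ∈ 𝓑, ∀ C ∈ 𝓑, B ⊆ C → B = C := by
      intro B hB1 C hC1 hBC
      by_contra hBC'
      obtain ⟨b, hb⟩ := hne B hB1
      obtain ⟨c, hc⟩ := hne C hC1
      obtain ⟨x, hx1, hx2⟩ := hR ⟨(b, B), hB1, hb⟩ ⟨(c, C), hC1, hc⟩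
        ((hnesnd _ _).2 hBC')
      rw [meets_iff] at hx1 hx2
      exact hx2 ⟨hC1, hBC hx1.2⟩
    refine ⟨hanti, fun huniv => ?_⟩
    obtain ⟨x, y, hxy⟩ := exists_pair_ne P
    obtain ⟨u, hu1, hu2⟩ := hL ⟨(x, Finset.univ), huniv, Finset.mem_univ x⟩
      ⟨(y, Finset.univ), huniv, Finset.mem_univ y⟩ ((hnefst _ _).2 hxy)
    rw [meets_iff] at hu1 hu2
    have h3 := hanti u.1.2 hu1.1 Finset.univ huniv (Finset.subset_univ _)
    refine hu2 ⟨hu1.1, ?_⟩
    rw [h3]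
    exact Finset.mem_univ y
  · rintro ⟨hanti, huniv⟩
    refine ⟨?_, ?_, ?_⟩
    · intro e e' h1 h2
      exact Subtype.ext (Prod.ext h1 h2)
    · intro e e' h1
      rw [hnefst] at h1
      by_contra hcon
      push Not at hcon
      have hall : ∀ D ∈ 𝓑, e.1.1 ∈ D → e'.1.1 ∈ D := by
        intro D hD h3
        have h4 := hcon ⟨(e.1.1, D), hD, h3⟩ ((meets_iff _ _ _).2 ⟨hD, h3⟩)
        rw [meets_iff] at h4
        exact h4.2
      have hall2 : ∀ z, ∀ D ∈ 𝓑, e.1.1 ∈ D → z ∈ D := by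
        intro z D hD h3
        by_cases hz : e.1.1 = z
        · rw [← hz]
          exact h3
        · have hsub : (𝓑.filter fun B => e.1.1 ∈ B ∧ z ∈ B) ⊆
              𝓑.filter fun B => e.1.1 ∈ B ∧ e'.1.1 ∈ B := by
            intro D' hD'
            rw [Finset.mem_filter] at hD' ⊢
            exact ⟨hD'.1, hD'.2.1, hall D' hD'.1 hD'.2.1⟩
          have heq := Finset.eq_of_subset_of_card_le hsub (by rw [hB _ _ h1, hB _ _ hz])
          have hmem : D ∈ 𝓑.filter fun B => e.1.1 ∈ B ∧ e'.1.1 ∈ B := by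
            rw [Finset.mem_filter]
            exact ⟨hD, h3, hall D hD h3⟩
          rw [← heq, Finset.mem_filter] at hmem
          exact hmem.2.2
      obtain ⟨D, hD, h3, -⟩ := hcommon _ _ h1
      have h5 : D = Finset.univ := by
        ext z
        exact ⟨fun _ => Finset.mem_univ z, fun _ => hall2 z D hD h3⟩
      rw [h5] at hD
      exact huniv hD
    · intro u v huv
      rw [hnesnd] at huv
      by_contra hcon
      push Not at hcon
      refine huv (hanti _ u.2.1 _ v.2.1 fun x hx => ?_)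
      have h4 := hcon ⟨(x, u.1.2), u.2.1, hx⟩ ((meets_iff _ _ _).2 ⟨u.2.1, hx⟩)
      rw [meets_iff] at h4
      exact h4.2

end Pool.Agent.Helper57.Idem
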