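import Mathlib
import Pool.Agent.Helper57.Idem.CoreG
import Pool.Agent.Helper57.Idem.Pbd

set_option autoImplicit false

/-!
# The criterion for pairs with local exchange and the nearest span property
-/

namespace Pool.Agent.Helper57.Idem

open Pool.Agent.Helper70.IdemDefs

section Sup

theorem propertyP_sup {E : Type*} {θ φ : Setoid E} (hP : PropertyP {θ, φ}) : θ ⊔ φ = ⊤ := by
  classical
  rw [Setoid.eq_top_iff]
  intro x₀ y₀
  by_contra hne
  set J := θ ⊔ φ with hJ
  let f : E → E → E := fun x y => if J x₀ x then x else y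
  have hf1 : ∀ x y, J x₀ x → f x y = x := fun x y h => if_pos h
  have hf2 : ∀ x y, ¬ J x₀ x → f x y = y := fun x y h => if_neg h
  have hid : ∀ x, f x x = x := by
    intro x
    by_cases h : J x₀ x
    · exact hf1 x x h
    · exact hf2 x x h
  have hpres : ∀ ψ : Setoid E, ψ ≤ J → Preserves f ψ := by
    intro ψ hψ x x' y y' hx hy
    by_cases h : J x₀ x
    · rw [hf1 x y h, hf1 x' y' (J.trans h (hψ hx))]
      exact hx
    · rw [hf2 x y h, hf2 x' y' (fun h' => h (J.trans h' (J.symm (hψ hx))))]
      exact hy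
  rcases hP f hid (fun ψ hψ => by
    rcases hψ with rfl | hψ
    · exact hpres _ le_sup_left
    · obtain rfl : ψ = φ := hψ
      exact hpres _ le_sup_right) with h | h
  · have h1 := h y₀ x₀
    rw [hf2 y₀ x₀ hne] at h1
    exact hne (by rw [h1])
  · have h1 := h x₀ y₀
    rw [hf1 x₀ y₀ (J.refl x₀)] at h1
    exact hne (by rw [h1])

theorem conn_of_sup {E L R : Type*} {I : L → R → Prop} (α : E → L) (β : E → R)
    (hI : ∀ e, I (α e) (β e)) {θ φ : Setoid E} (hθ : ∀ e e', θ e e' → α e = α e')
    (hφ : ∀ e e', φ e e' → β e = β e') (hsup : θ ⊔ φ = ⊤) (e e' : E) :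
    ∃ k, Near I k (α e) (α e') := by
  let r : Setoid E := ⟨fun e e' => ∃ k, Near I k (α e) (α e'),
    ⟨fun e => ⟨0, rfl⟩, fun ⟨k, h⟩ => ⟨k, near_symm h⟩,
      fun ⟨k, h⟩ ⟨k', h'⟩ => ⟨k + k', near_add h h'⟩⟩⟩
  have h1 : θ ≤ r := fun e e' h => ⟨0, hθ e e' h⟩
  have h2 : φ ≤ r := by
    intro e e' h
    refine ⟨1, near_one.2 ⟨β e, hI e, ?_⟩⟩
    rw [hφ e e' h]
    exact hI e'
  have h3 : θ ⊔ φ ≤ r := sup_le h1 h2
  rw [hsup] at h3
  exact h3 (x := e) (y := e') trivial

end Sup

variable {E : Type*}

/-- the `θ`-classes of `x` and `y` meet a common `φ`-class -/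
def Step (θ φ : Setoid E) (x y : E) : Prop := ∃ u, Meets θ φ x u ∧ Meets θ φ y u

/-- at most `k` steps lead from the `θ`-class of `x` to the `θ`-class of `y` -/
def Within (θ φ : Setoid E) : ℕ → E → E → Prop
  | 0, x, y => θ x y
  | k + 1, x, y => ∃ z, Within θ φ k x z ∧ Step θ φ z y

/-- exchange for `θ`-classes `x`, `y` that meet a common `φ`-class -/
def LocalExchange (θ φ : Setoid E) : Prop :=
  ∀ x y z, ¬ θ x y → ¬ θ x z → Step θ φ x y →
    (∀ u, Meets θ φ x u → Meets θ φ y u → Meets θ φ z u) →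
    ∀ u, Meets θ φ x u → Meets θ φ z u → Meets θ φ y u

/-- if the `φ`-class of `b` misses the `θ`-class of `y`, then every `φ`-class that meets those
`θ`-classes meeting the class of `b` which are nearest to `y` (at most `k` steps away; this set
is not empty) meets all the `θ`-classes that the class of `b` meets -/
def NearestSpan (θ φ : Setoid E) : Prop :=
  ∀ k y b d, ¬ Meets θ φ y b → (∃ x, Meets θ φ x b ∧ Within θ φ k x y) →
    (∀ x, Meets θ φ x b → Within θ φ k x y → Meets θ φ x d) →
    ∀ x, Meets θ φ x b → Meets θ φ x d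

theorem propertyP_of_nearest {θ φ : Setoid E} (h1 : LocalExchange θ φ) (h2 : NearestSpan θ φ)
    (h3 : Tight θ φ) (h4 : θ ⊔ φ = ⊤) : PropertyP {θ, φ} := by
  intro f hid hf
  have hθ : Preserves f θ := hf θ (by simp)
  have hφ : Preserves f φ := hf φ (by simp)
  let I : Quotient θ → Quotient φ → Prop := fun X U =>
    ∃ e, Quotient.mk θ e = X ∧ Quotient.mk φ e = U
  have hI : ∀ x u, I (Quotient.mk θ x) (Quotient.mk φ u) ↔ Meets θ φ x u := by
    intro x u
    constructor
    · rintro ⟨e, he1, he2⟩
      exact ⟨e, θ.symm (Quotient.exact he1), φ.symm (Quotient.exact he2)⟩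
    · rintro ⟨e, he1, he2⟩
      exact ⟨e, Quotient.sound (θ.symm he1), Quotient.sound (φ.symm he2)⟩
  have hneθ : ∀ x y, Quotient.mk θ x ≠ Quotient.mk θ y ↔ ¬ θ x y := by
    intro x y
    rw [ne_eq, Quotient.eq]
  have hneφ : ∀ x y, Quotient.mk φ x ≠ Quotient.mk φ y ↔ ¬ φ x y := by
    intro x y
    rw [ne_eq, Quotient.eq]
  have hC : ∀ x y, Coh I (Quotient.mk θ x) (Quotient.mk θ y) ↔ Step θ φ x y := by
    intro x y
    constructor
    · rintro ⟨U, hU1, hU2⟩
      induction U using Quotient.inductionOn with | _ u => ?_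
      exact ⟨u, (hI x u).1 hU1, (hI y u).1 hU2⟩
    · rintro ⟨u, hu1, hu2⟩
      exact ⟨Quotient.mk φ u, (hI x u).2 hu1, (hI y u).2 hu2⟩
  have hN : ∀ k x y, Near I k (Quotient.mk θ x) (Quotient.mk θ y) ↔ Within θ φ k x y := by
    intro k
    induction k with
    | zero =>
      intro x y
      exact Quotient.eq
    | succ k ih =>
      intro x y
      constructor
      · rintro ⟨Z, hZ1, hZ2⟩
        induction Z using Quotient.inductionOn with | _ z => ?_
        exact ⟨z, (ih x z).1 hZ1, (hC z y).1 hZ2⟩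
      · rintro ⟨z, hz1, hz2⟩
        exact ⟨Quotient.mk θ z, (ih x z).2 hz1, (hC z y).2 hz2⟩
  let a : Quotient θ → Quotient θ → Quotient θ :=
    Quotient.map₂ f (fun x x' hx y y' hy => hθ x x' y y' hx hy)
  let b : Quotient φ → Quotient φ → Quotient φ :=
    Quotient.map₂ f (fun x x' hx y y' hy => hφ x x' y y' hx hy)
  have hH : HypG I := by
    refine ⟨?_, ?_, ?_, ?_, ?_⟩
    · intro X Y
      induction X using Quotient.inductionOn with | _ x => ?_
      induction Y using Quotient.inductionOn with | _ y => ?_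
      exact conn_of_sup (Quotient.mk θ) (Quotient.mk φ) (fun e => ⟨e, rfl, rfl⟩)
        (fun e e' h => Quotient.sound h) (fun e e' h => Quotient.sound h) h4 x y
    · intro X Y Z
      induction X using Quotient.inductionOn with | _ x => ?_
      induction Y using Quotient.inductionOn with | _ y => ?_
      induction Z using Quotient.inductionOn with | _ z => ?_
      intro hxy hxz hc hall U
      induction U using Quotient.inductionOn with | _ u => ?_
      rw [hI, hI, hI]
      refine h1 x y z ((hneθ x y).1 hxy) ((hneθ x z).1 hxz) ((hC x y).1 hc)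
        (fun w hw1 hw2 => ?_) u
      exact (hI z w).1 (hall _ ((hI x w).2 hw1) ((hI y w).2 hw2))
    · intro k Y B D
      induction Y using Quotient.inductionOn with | _ y => ?_
      induction B using Quotient.inductionOn with | _ b => ?_
      induction D using Quotient.inductionOn with | _ d => ?_
      intro hyB hex hall X
      induction X using Quotient.inductionOn with | _ x => ?_
      rw [hI, hI]
      refine h2 k y b d (fun hh => hyB ((hI y b).2 hh)) ?_ (fun x' hx' hn' => ?_) x
      · obtain ⟨X, hX1, hX2⟩ := hex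
        induction X using Quotient.inductionOn with | _ x => ?_
        exact ⟨x, (hI x b).1 hX1, (hN k x y).1 hX2⟩
      · exact (hI x' d).1 (hall _ ((hI x' b).2 hx') ((hN k x' y).2 hn'))
    · intro X Y
      induction X using Quotient.inductionOn with | _ x => ?_
      induction Y using Quotient.inductionOn with | _ y => ?_
      intro hxy
      obtain ⟨u, hu1, hu2⟩ := h3.2.1 x y ((hneθ x y).1 hxy)
      exact ⟨Quotient.mk φ u, (hI x u).2 hu1, fun hh => hu2 ((hI y u).1 hh)⟩
    · intro U V
      induction U using Quotient.inductionOn with | _ u => ?_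
      induction V using Quotient.inductionOn with | _ v => ?_
      intro huv
      obtain ⟨x, hx1, hx2⟩ := h3.2.2 u v ((hneφ u v).1 huv)
      exact ⟨Quotient.mk θ x, (hI x u).2 hx1, fun hh => hx2 ((hI x v).1 hh)⟩
  have hO : Op I a b := by
    refine ⟨?_, ?_, ?_⟩
    · intro X
      induction X using Quotient.inductionOn with | _ x => ?_
      change Quotient.mk θ (f x x) = _
      rw [hid]
    · intro X
      induction X using Quotient.inductionOn with | _ x => ?_
      change Quotient.mk φ (f x x) = _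
      rw [hid]
    · rintro X Y U V ⟨e, rfl, rfl⟩ ⟨e', rfl, rfl⟩
      exact ⟨f e e', rfl, rfl⟩
  rcases coreG hH hO with ⟨ha, hb⟩ | ⟨ha, hb⟩
  · left
    intro x y
    refine h3.1 _ _ ?_ ?_
    · exact Quotient.exact (ha (Quotient.mk θ x) (Quotient.mk θ y))
    · exact Quotient.exact (hb (Quotient.mk φ x) (Quotient.mk φ y))
  · right
    intro x y
    refine h3.1 _ _ ?_ ?_
    · exact Quotient.exact (ha (Quotient.mk θ x) (Quotient.mk θ y))
    · exact Quotient.exact (hb (Quotient.mk φ x) (Quotient.mk φ y))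

/-- the criterion -/
theorem criterionG {θ φ : Setoid E} (h1 : LocalExchange θ φ) (h2 : NearestSpan θ φ) :
    PropertyP {θ, φ} ↔ θ ⊔ φ = ⊤ ∧ Tight θ φ :=
  ⟨fun h => ⟨propertyP_sup h, tight_of_propertyP h⟩,
    fun h => propertyP_of_nearest h1 h2 h.2 h.1⟩

end Pool.Agent.Helper57.Idem
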