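import Mathlib
import Pool.Agent.Helper57.Idem.Crit

set_option autoImplicit false

/-!
# Almost all subsets of a grid
-/

namespace Pool.Agent.Helper57.Idem

open Pool.Agent.Helper70.IdemDefs

/-- any three rows `x, y, z` are separated by a column that meets `x, y` only, and for two
different columns there is a row that meets the first one only -/
structure Good {A R : Type*} (M : A → R → Bool) : Prop where
  c3 : ∀ x y z, x ≠ y → x ≠ z → y ≠ z → ∃ u, M x u = true ∧ M y u = true ∧ M z u = false
  c2 : ∀ u v, u ≠ v → ∃ x, M x u = true ∧ M x v = false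

theorem Good.propertyP {E A R : Type*} {M : A → R → Bool} (h : Good M)
    (hA : ∀ x y : A, ∃ z, z ≠ x ∧ z ≠ y) (α : E → A) (β : E → R)
    (hE : ∀ e, M (α e) (β e) = true) (hs : ∀ x u, M x u = true → ∃ e, α e = x ∧ β e = u)
    (hi : ∀ e e', α e = α e' → β e = β e' → e = e') :
    PropertyP {Setoid.ker α, Setoid.ker β} := by
  have hM : ∀ x u : E, Meets (Setoid.ker α) (Setoid.ker β) x u ↔ M (α x) (β u) = true := by
    intro x u
    constructor
    · rintro ⟨e, h1, h2⟩
      have h1' : α x = α e := h1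
      have h2' : β u = β e := h2
      rw [h1', h2']
      exact hE e
    · intro h1
      obtain ⟨e, he1, he2⟩ := hs _ _ h1
      exact ⟨e, he1.symm, he2.symm⟩
  have hα : ∀ x y : E, ¬ (Setoid.ker α) x y ↔ α x ≠ α y := fun x y => Iff.rfl
  have hβ : ∀ x y : E, ¬ (Setoid.ker β) x y ↔ β x ≠ β y := fun x y => Iff.rfl
  refine propertyP_of_tight ?_ ?_ ⟨?_, ?_, ?_⟩
  · intro e e'
    by_cases hee : α e = α e'
    · refine ⟨e, (hM _ _).2 (hE e), (hM _ _).2 ?_⟩
      rw [← hee]
      exact hE e
    · obtain ⟨z, hz1, hz2⟩ := hA (α e) (α e')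
      obtain ⟨u, hu1, hu2, -⟩ := h.c3 (α e) (α e') z hee hz1.symm hz2.symm
      obtain ⟨w, hw1, hw2⟩ := hs _ _ hu1
      refine ⟨w, (hM _ _).2 ?_, (hM _ _).2 ?_⟩
      · rw [hw2]
        exact hu1
      · rw [hw2]
        exact hu2
  · intro e e' e'' h1 h2 hall u hu1 hu2
    rw [hα] at h1 h2
    by_cases h3 : α e' = α e''
    · rw [hM] at hu2 ⊢
      rw [h3]
      exact hu2
    · exfalso
      obtain ⟨u, hu1, hu2, hu3⟩ := h.c3 (α e) (α e') (α e'') h1 h2 h3
      obtain ⟨w, hw1, hw2⟩ := hs _ _ hu1
      have h4 := hall w ((hM _ _).2 (by rw [hw2]; exact hu1)) ((hM _ _).2 (by rw [hw2]; exact hu2))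
      rw [hM, hw2, hu3] at h4
      exact absurd h4 (by decide)
  · exact hi
  · intro e e' h1
    rw [hα] at h1
    obtain ⟨z, hz1, hz2⟩ := hA (α e) (α e')
    obtain ⟨u, hu1, -, hu3⟩ := h.c3 (α e) z (α e') hz1.symm h1 hz2
    obtain ⟨w, hw1, hw2⟩ := hs _ _ hu1
    refine ⟨w, (hM _ _).2 (by rw [hw2]; exact hu1), fun hh => ?_⟩
    rw [hM, hw2, hu3] at hh
    exact absurd hh (by decide)
  · intro u v h1
    rw [hβ] at h1
    obtain ⟨x, hx1, hx2⟩ := h.c2 (β u) (β v) h1
    obtain ⟨w, hw1, hw2⟩ := hs _ _ hx1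
    refine ⟨w, (hM _ _).2 (by rw [hw1]; exact hx1), fun hh => ?_⟩
    rw [hM, hw1, hx2] at hh
    exact absurd hh (by decide)

/-- the points of a subset of the grid `(Fin n)^k`, given by its indicator function -/
abbrev GridPts {k n : ℕ} (M : (Fin k → Fin n) → Bool) : Type := {p : Fin k → Fin n // M p = true}

/-- the `k` relations of having the same `i`-th coordinate -/
def gridFamily {k n : ℕ} (M : (Fin k → Fin n) → Bool) : Set (Setoid (GridPts M)) :=
  Set.range fun i : Fin k => Setoid.ker fun p : GridPts M => p.1 i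

/-- first coordinate against the others -/
def toMat {d n : ℕ} (M : (Fin (d + 1) → Fin n) → Bool) (x : Fin n) (u : Fin d → Fin n) : Bool :=
  M (Fin.cons x u)

theorem toMat_injective {d n : ℕ} : Function.Injective (toMat (d := d) (n := n)) := by
  intro M M' h
  funext p
  have h1 := congrFun (congrFun h (p 0)) (Fin.tail p)
  simp only [toMat, Fin.cons_self_tail] at h1
  exact h1

theorem propertyP_grid {d n : ℕ} (hn : 3 ≤ n) (M : (Fin (d + 1) → Fin n) → Bool)
    (h : Good (toMat M)) : PropertyP (gridFamily M) := by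
  have hA : ∀ x y : Fin n, ∃ z, z ≠ x ∧ z ≠ y := by
    intro x y
    have h1 : ∃ z, z ∉ ({x, y} : Finset (Fin n)) := by
      by_contra hcon
      push Not at hcon
      have h2 : (Finset.univ : Finset (Fin n)) ⊆ {x, y} := fun z _ => hcon z
      have h3 := Finset.card_le_card h2
      have h4 : ({x, y} : Finset (Fin n)).card ≤ 2 := Finset.card_le_two
      rw [Finset.card_univ, Fintype.card_fin] at h3
      omega
    obtain ⟨z, hz⟩ := h1
    rw [Finset.mem_insert, Finset.mem_singleton, not_or] at hz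
    exact ⟨z, hz.1, hz.2⟩
  have h1 := h.propertyP hA (fun p : GridPts M => p.1 0) (fun p : GridPts M => Fin.tail p.1)
    (fun e => by
      change M (Fin.cons (e.1 0) (Fin.tail e.1)) = true
      rw [Fin.cons_self_tail]
      exact e.2)
    (fun x u hx => ⟨⟨Fin.cons x u, hx⟩, rfl, rfl⟩)
    (fun e e' h2 h3 => by
      apply Subtype.ext
      rw [← Fin.cons_self_tail e.1, ← Fin.cons_self_tail e'.1]
      have h2' : e.1 0 = e'.1 0 := h2
      have h3' : Fin.tail e.1 = Fin.tail e'.1 := h3
      rw [h2', h3'])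
  refine propertyP_mono h1 fun f hf θ hθ => ?_
  rcases hθ with rfl | hθ
  · exact hf _ ⟨0, rfl⟩
  · obtain rfl : θ = _ := hθ
    intro x x' y y' hx hy
    have hx' : Fin.tail x.1 = Fin.tail x'.1 := hx
    have hy' : Fin.tail y.1 = Fin.tail y'.1 := hy
    change Fin.tail (f x y).1 = Fin.tail (f x' y').1
    funext i
    exact hf _ ⟨i.succ, rfl⟩ x x' y y' (congrFun hx' i) (congrFun hy' i)

section Count

variable {A R : Type*} [Fintype A] [DecidableEq A] [Fintype R] [DecidableEq R]

theorem card_fix (S : Finset A) (g : A → Bool) :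
    (Finset.univ.filter fun c : A → Bool => ∀ s ∈ S, c s = g s).card * 2 ^ S.card =
      2 ^ Fintype.card A := by
  have h1 : (Finset.univ.filter fun c : A → Bool => ∀ s ∈ S, c s = g s) =
      Fintype.piFinset (fun i => if i ∈ S then {g i} else Finset.univ) := by
    ext c
    rw [Finset.mem_filter, Fintype.mem_piFinset]
    constructor
    · intro h i
      by_cases hi : i ∈ S
      · rw [if_pos hi, Finset.mem_singleton]
        exact h.2 i hi
      · rw [if_neg hi]
        exact Finset.mem_univ _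
    · intro h
      refine ⟨Finset.mem_univ _, fun s hs => ?_⟩
      have h2 := h s
      rw [if_pos hs, Finset.mem_singleton] at h2
      exact h2
  have h2 : ∀ i : A, (if i ∈ S then ({g i} : Finset Bool) else Finset.univ).card =
      if i ∈ S then 1 else 2 := by
    intro i
    split_ifs
    · exact Finset.card_singleton _
    · rfl
  rw [h1, Fintype.card_piFinset]
  simp only [h2]
  rw [Finset.prod_ite, Finset.prod_const_one, one_mul, Finset.prod_const, ← pow_add]
  congr 1
  have h3 : (Finset.univ.filter fun i : A => i ∉ S) = Sᶜ := by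
    ext i
    simp
  rw [h3, Finset.card_compl_add_card]

theorem card_not {c : ℕ} {Q : (A → Bool) → Prop} [DecidablePred Q]
    (h : (Finset.univ.filter Q).card * c = 2 ^ Fintype.card A) :
    ((Finset.univ.filter fun M => ¬ Q M).card : ℝ) * c = (c - 1) * 2 ^ Fintype.card A := by
  have h1 := Finset.card_filter_add_card_filter_not (s := (Finset.univ : Finset (A → Bool))) Q
  rw [Finset.card_univ, Fintype.card_fun, Fintype.card_bool] at h1
  have h2 : ((Finset.univ.filter Q).card : ℝ) * c = 2 ^ Fintype.card A := by exact_mod_cast h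
  have h3 : ((Finset.univ.filter Q).card : ℝ) + (Finset.univ.filter fun M => ¬ Q M).card =
      2 ^ Fintype.card A := by exact_mod_cast h1
  linear_combination c * h3 - h2

theorem card_pat3 {x y z : A} (hxy : x ≠ y) (hxz : x ≠ z) (hyz : y ≠ z) :
    ((Finset.univ.filter fun c : A → Bool => ¬ (c x = true ∧ c y = true ∧ c z = false)).card : ℝ)
      = 7 / 8 * 2 ^ Fintype.card A := by
  have h1 := card_fix ({x, y, z} : Finset A) (fun i => if i = z then false else true)
  have h2 : ({x, y, z} : Finset A).card = 3 := Finset.card_eq_three.2 ⟨x, y, z, hxy, hxz, hyz, rfl⟩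
  have h3 : (Finset.univ.filter fun c : A → Bool =>
      ∀ s ∈ ({x, y, z} : Finset A), c s = if s = z then false else true) =
      Finset.univ.filter fun c : A → Bool => (c x = true ∧ c y = true ∧ c z = false) := by
    ext c
    simp [hxz, hyz]
  rw [h2, h3] at h1
  have h4 := card_not (c := 8) (by norm_num at h1 ⊢; exact h1)
  push_cast at h4
  linarith

theorem card_pat2 {x y : A} (hxy : x ≠ y) :
    ((Finset.univ.filter fun c : A → Bool => ¬ (c x = true ∧ c y = false)).card : ℝ)
      = 3 / 4 * 2 ^ Fintype.card A := by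
  have h1 := card_fix ({x, y} : Finset A) (fun i => if i = y then false else true)
  have h2 : ({x, y} : Finset A).card = 2 := Finset.card_pair hxy
  have h3 : (Finset.univ.filter fun c : A → Bool =>
      ∀ s ∈ ({x, y} : Finset A), c s = if s = y then false else true) =
      Finset.univ.filter fun c : A → Bool => (c x = true ∧ c y = false) := by
    ext c
    simp [hxy]
  rw [h2, h3] at h1
  have h4 := card_not (c := 4) (by norm_num at h1 ⊢; exact h1)
  push_cast at h4
  linarith

theorem card_cols (Q : (A → Bool) → Prop) [DecidablePred Q] :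
    (Finset.univ.filter fun M : A → R → Bool => ∀ u, Q fun x => M x u).card ≤
      (Finset.univ.filter Q).card ^ Fintype.card R := by
  have h0 : (Fintype.piFinset fun _ : R => Finset.univ.filter Q).card =
      (Finset.univ.filter Q).card ^ Fintype.card R := by
    rw [Fintype.card_piFinset, Finset.prod_const, Finset.card_univ]
  rw [← h0]
  refine Finset.card_le_card_of_injOn (fun M u x => M x u) ?_ ?_
  · intro M hM
    rw [Finset.mem_coe, Finset.mem_filter] at hM
    rw [Finset.mem_coe, Fintype.mem_piFinset]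
    intro u
    rw [Finset.mem_filter]
    exact ⟨Finset.mem_univ _, hM.2 u⟩
  · intro M _ M' _ h
    funext x u
    exact congrFun (congrFun h u) x

theorem card_rows (Q : (R → Bool) → Prop) [DecidablePred Q] :
    (Finset.univ.filter fun M : A → R → Bool => ∀ x, Q (M x)).card ≤
      (Finset.univ.filter Q).card ^ Fintype.card A := by
  have h0 : (Fintype.piFinset fun _ : A => Finset.univ.filter Q).card =
      (Finset.univ.filter Q).card ^ Fintype.card A := by
    rw [Fintype.card_piFinset, Finset.prod_const, Finset.card_univ]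
  rw [← h0]
  refine Finset.card_le_card ?_
  intro M hM
  rw [Finset.mem_filter] at hM
  rw [Fintype.mem_piFinset]
  intro u
  rw [Finset.mem_filter]
  exact ⟨Finset.mem_univ _, hM.2 u⟩

open scoped Classical in
theorem card_not_good :
    ((Finset.univ.filter fun M : A → R → Bool => ¬ Good M).card : ℝ) ≤
      ((Fintype.card A : ℝ) ^ 3 * (7 / 8) ^ Fintype.card R +
        (Fintype.card R : ℝ) ^ 2 * (3 / 4) ^ Fintype.card A) *
        2 ^ (Fintype.card A * Fintype.card R) := by
  set m := Fintype.card A with hm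
  set N := Fintype.card R with hN
  let T1 : A × A × A → Finset (A → R → Bool) := fun t =>
    if t.1 ≠ t.2.1 ∧ t.1 ≠ t.2.2 ∧ t.2.1 ≠ t.2.2 then
      Finset.univ.filter fun M : A → R → Bool =>
        ∀ u, ¬ (M t.1 u = true ∧ M t.2.1 u = true ∧ M t.2.2 u = false)
    else ∅
  let T2 : R × R → Finset (A → R → Bool) := fun t =>
    if t.1 ≠ t.2 then
      Finset.univ.filter fun M : A → R → Bool => ∀ x, ¬ (M x t.1 = true ∧ M x t.2 = false)
    else ∅
  have hsub : (Finset.univ.filter fun M : A → R → Bool => ¬ Good M) ⊆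
      Finset.univ.biUnion T1 ∪ Finset.univ.biUnion T2 := by
    intro M hM
    rw [Finset.mem_filter] at hM
    by_contra hcon
    rw [Finset.mem_union, not_or, Finset.mem_biUnion, Finset.mem_biUnion] at hcon
    refine hM.2 ⟨fun x y z h1 h2 h3 => ?_, fun u v h1 => ?_⟩
    · by_contra h4
      refine hcon.1 ⟨(x, y, z), Finset.mem_univ _, ?_⟩
      change M ∈ if _ then _ else _
      rw [if_pos ⟨h1, h2, h3⟩, Finset.mem_filter]
      exact ⟨Finset.mem_univ _, fun u h5 => h4 ⟨u, h5⟩⟩
    · by_contra h4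
      refine hcon.2 ⟨(u, v), Finset.mem_univ _, ?_⟩
      change M ∈ if _ then _ else _
      rw [if_pos h1, Finset.mem_filter]
      exact ⟨Finset.mem_univ _, fun u h5 => h4 ⟨u, h5⟩⟩
  have hT1 : ∀ t, ((T1 t).card : ℝ) ≤ (7 / 8) ^ N * 2 ^ (m * N) := by
    intro t
    by_cases ht : t.1 ≠ t.2.1 ∧ t.1 ≠ t.2.2 ∧ t.2.1 ≠ t.2.2
    · have h1 : T1 t = Finset.univ.filter fun M : A → R → Bool =>
          ∀ u, ¬ (M t.1 u = true ∧ M t.2.1 u = true ∧ M t.2.2 u = false) := if_pos ht
      rw [h1]
      have h2 := card_cols (A := A) (R := R)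
        (fun c => ¬ (c t.1 = true ∧ c t.2.1 = true ∧ c t.2.2 = false))
      have h3 : ((Finset.univ.filter fun M : A → R → Bool =>
          ∀ u, ¬ (M t.1 u = true ∧ M t.2.1 u = true ∧ M t.2.2 u = false)).card : ℝ) ≤
          ((Finset.univ.filter fun c : A → Bool =>
            ¬ (c t.1 = true ∧ c t.2.1 = true ∧ c t.2.2 = false)).card : ℝ) ^ N := by
        exact_mod_cast h2
      rw [card_pat3 ht.1 ht.2.1 ht.2.2, mul_pow, ← pow_mul] at h3
      exact h3
    · have h1 : T1 t = ∅ := if_neg ht
      rw [h1, Finset.card_empty, Nat.cast_zero]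
      positivity
  have hT2 : ∀ t, ((T2 t).card : ℝ) ≤ (3 / 4) ^ m * 2 ^ (m * N) := by
    intro t
    by_cases ht : t.1 ≠ t.2
    · have h1 : T2 t = Finset.univ.filter fun M : A → R → Bool =>
          ∀ x, ¬ (M x t.1 = true ∧ M x t.2 = false) := if_pos ht
      rw [h1]
      have h2 := card_rows (A := A) (R := R) (fun c => ¬ (c t.1 = true ∧ c t.2 = false))
      have h3 : ((Finset.univ.filter fun M : A → R → Bool =>
          ∀ x, ¬ (M x t.1 = true ∧ M x t.2 = false)).card : ℝ) ≤
          ((Finset.univ.filter fun c : R → Bool =>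
            ¬ (c t.1 = true ∧ c t.2 = false)).card : ℝ) ^ m := by
        exact_mod_cast h2
      rw [card_pat2 ht, mul_pow, ← pow_mul, mul_comm (Fintype.card R)] at h3
      exact h3
    · have h1 : T2 t = ∅ := if_neg ht
      rw [h1, Finset.card_empty, Nat.cast_zero]
      positivity
  have h1 : ((Finset.univ.filter fun M : A → R → Bool => ¬ Good M).card : ℝ) ≤
      ((Finset.univ.biUnion T1).card : ℝ) + (Finset.univ.biUnion T2).card := by
    exact_mod_cast (Finset.card_le_card hsub).trans (Finset.card_union_le _ _)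
  have h2 : ((Finset.univ.biUnion T1).card : ℝ) ≤ (m : ℝ) ^ 3 * ((7 / 8) ^ N * 2 ^ (m * N)) := by
    have h3 : ((Finset.univ.biUnion T1).card : ℝ) ≤ ∑ t : A × A × A, ((T1 t).card : ℝ) := by
      exact_mod_cast Finset.card_biUnion_le
    refine h3.trans ((Finset.sum_le_sum fun t _ => hT1 t).trans ?_)
    rw [Finset.sum_const, Finset.card_univ, Fintype.card_prod, Fintype.card_prod, ← hm,
      nsmul_eq_mul]
    push_cast
    apply le_of_eq
    ring
  have h3 : ((Finset.univ.biUnion T2).card : ℝ) ≤ (N : ℝ) ^ 2 * ((3 / 4) ^ m * 2 ^ (m * N)) := by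
    have h3 : ((Finset.univ.biUnion T2).card : ℝ) ≤ ∑ t : R × R, ((T2 t).card : ℝ) := by
      exact_mod_cast Finset.card_biUnion_le
    refine h3.trans ((Finset.sum_le_sum fun t _ => hT2 t).trans ?_)
    rw [Finset.sum_const, Finset.card_univ, Fintype.card_prod, ← hN, nsmul_eq_mul]
    push_cast
    apply le_of_eq
    ring
  linarith

end Count

open scoped Classical in
/-- at most `(n³ (7/8)^(n^d) + n^(2d) (3/4)^n) 2^(n^(d+1))` subsets of the grid `n^(d+1)` fail -/
theorem card_fail {d n : ℕ} (hn : 3 ≤ n) :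
    ((Finset.univ.filter fun M : (Fin (d + 1) → Fin n) → Bool =>
      ¬ PropertyP (gridFamily M)).card : ℝ) ≤
      ((n : ℝ) ^ 3 * (7 / 8) ^ (n ^ d) + (n : ℝ) ^ (2 * d) * (3 / 4) ^ n) *
        2 ^ (n ^ (d + 1)) := by
  have h1 : (Finset.univ.filter fun M : (Fin (d + 1) → Fin n) → Bool =>
      ¬ PropertyP (gridFamily M)).card ≤
      (Finset.univ.filter fun M : Fin n → (Fin d → Fin n) → Bool => ¬ Good M).card := by
    refine Finset.card_le_card_of_injOn toMat ?_ toMat_injective.injOn
    intro M hM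
    rw [Finset.mem_coe, Finset.mem_filter] at hM ⊢
    exact ⟨Finset.mem_univ _, fun hg => hM.2 (propertyP_grid hn M hg)⟩
  have h2 := card_not_good (A := Fin n) (R := Fin d → Fin n)
  rw [Fintype.card_fun, Fintype.card_fin, Fintype.card_fin] at h2
  have h3 : ((Finset.univ.filter fun M : (Fin (d + 1) → Fin n) → Bool =>
      ¬ PropertyP (gridFamily M)).card : ℝ) ≤
      (Finset.univ.filter fun M : Fin n → (Fin d → Fin n) → Bool => ¬ Good M).card := by
    exact_mod_cast h1
  refine h3.trans (h2.trans (le_of_eq ?_))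
  rw [show n * n ^ d = n ^ (d + 1) by ring]
  push_cast
  ring

open scoped Classical in
theorem tendsto_fail {d : ℕ} (hd : 1 ≤ d) :
    Filter.Tendsto (fun n : ℕ => ((Finset.univ.filter fun M : (Fin (d + 1) → Fin n) → Bool =>
      ¬ PropertyP (gridFamily M)).card : ℝ) / 2 ^ (n ^ (d + 1))) Filter.atTop (nhds 0) := by
  have h1 : Filter.Tendsto (fun n : ℕ => (n : ℝ) ^ 3 * (7 / 8 : ℝ) ^ n +
      (n : ℝ) ^ (2 * d) * (3 / 4 : ℝ) ^ n) Filter.atTop (nhds 0) := by
    have h2 := tendsto_pow_const_mul_const_pow_of_abs_lt_one 3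
      (show |(7 / 8 : ℝ)| < 1 by rw [abs_of_pos (by norm_num)]; norm_num)
    have h3 := tendsto_pow_const_mul_const_pow_of_abs_lt_one (2 * d)
      (show |(3 / 4 : ℝ)| < 1 by rw [abs_of_pos (by norm_num)]; norm_num)
    have h4 := h2.add h3
    rwa [add_zero] at h4
  refine squeeze_zero' (Filter.Eventually.of_forall fun n => by positivity) ?_ h1
  filter_upwards [Filter.eventually_ge_atTop 3] with n hn
  rw [div_le_iff₀ (by positivity)]
  refine (card_fail hn).trans ?_
  have h5 : (7 / 8 : ℝ) ^ (n ^ d) ≤ (7 / 8 : ℝ) ^ n := by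
    apply pow_le_pow_of_le_one (by norm_num) (by norm_num)
    calc n = n ^ 1 := (pow_one n).symm
      _ ≤ n ^ d := Nat.pow_le_pow_right (by omega) hd
  gcongr

end Pool.Agent.Helper57.Idem
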