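import Mathlib
import Pool.Agent.Helper57.Idem.CritG

set_option autoImplicit false

/-!
# Incidence structures with constant intersection numbers
-/

namespace Pool.Agent.Helper57.Idem

open Pool.Agent.Helper70.IdemDefs

variable {A B : Type*} {I : A → B → Prop}

theorem near_succ (hA : ∀ x, ∃ u, I x u) {k : ℕ} {x y : A} (h : Near I k x y) :
    Near I (k + 1) x y := by
  obtain ⟨u, hu⟩ := hA y
  exact ⟨y, h, u, hu, hu⟩

theorem near_mono (hA : ∀ x, ∃ u, I x u) {k m : ℕ} (hkm : k ≤ m) {x y : A} (h : Near I k x y) :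
    Near I m x y := by
  induction m, hkm using Nat.le_induction with
  | base => exact h
  | succ m _ ih => exact near_succ hA ih

theorem hypG_of_semi {lam mu : ℕ} (hl : 2 ≤ lam) (hm : 2 ≤ mu)
    (h1 : ∀ x y, x ≠ y → (∃ u, I x u ∧ I y u) → {u | I x u ∧ I y u}.ncard = lam)
    (h2 : ∀ u v, u ≠ v → (∃ x, I x u ∧ I x v) → {x | I x u ∧ I x v}.ncard = mu)
    (hA : ∀ x, ∃ u, I x u) (hB : ∀ u, ∃ x, I x u)
    (hconn : ∀ x y, ∃ k, Near I k x y) (hnc : ¬ ∀ x u, I x u) : HypG I := by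
  have f1 : ∀ x y, x ≠ y → (∃ u, I x u ∧ I y u) → {u | I x u ∧ I y u}.Finite :=
    fun x y hxy hc => Set.finite_of_ncard_pos (by rw [h1 x y hxy hc]; omega)
  have f2 : ∀ u v, u ≠ v → (∃ x, I x u ∧ I x v) → {x | I x u ∧ I x v}.Finite :=
    fun u v huv hc => Set.finite_of_ncard_pos (by rw [h2 u v huv hc]; omega)
  -- points are separated
  have hsepL : ∀ x y, x ≠ y → ∃ u, I x u ∧ ¬ I y u := by
    intro x y hxy
    by_contra hcon
    push Not at hcon
    have hcoh : ∃ u, I x u ∧ I y u := by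
      obtain ⟨u, hu⟩ := hA x
      exact ⟨u, hu, hcon u hu⟩
    have hset : {u | I x u ∧ I y u} = {u | I x u} := by
      ext u
      exact ⟨fun hu => hu.1, fun hu => ⟨hu, hcon u hu⟩⟩
    have hfin : {u | I x u}.Finite := by
      rw [← hset]
      exact f1 x y hxy hcoh
    have hcard : {u | I x u}.ncard = lam := by
      rw [← hset]
      exact h1 x y hxy hcoh
    have s1 : ∀ z, Coh I x z → ∀ u, I x u → I z u := by
      intro z hz u hu
      by_cases hxz : x = z
      · rw [← hxz]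
        exact hu
      · have hsub : {u | I x u ∧ I z u} ⊆ {u | I x u} := fun u hu => hu.1
        have heq := Set.eq_of_subset_of_ncard_le hsub (by rw [hcard, h1 x z hxz hz]) hfin
        have hu' : u ∈ {u | I x u} := hu
        rw [← heq] at hu'
        exact hu'.2
    have s2 : ∀ u u', I x u → I x u' → ∀ t, I t u → I t u' :=
      fun u u' hu hu' t ht => s1 t ⟨u, hu, ht⟩ u' hu'
    have s3 : ∀ u v z, I x u → I z u → I z v → ∀ t, I t u → I t v := by
      intro u v z hxu hzu hzv t htu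
      by_cases huv : u = v
      · rw [← huv]
        exact htu
      · obtain ⟨u', hu', hne⟩ := Set.exists_ne_of_one_lt_ncard
          (show 1 < {u | I x u}.ncard by rw [hcard]; omega) u
        have hset2 : {t | I t u ∧ I t u'} = {t | I t u} := by
          ext t
          exact ⟨fun h => h.1, fun h => ⟨h, s2 u u' hxu hu' t h⟩⟩
        have hcard2 : {t | I t u}.ncard = mu := by
          rw [← hset2]
          exact h2 u u' hne.symm ⟨x, hxu, hu'⟩
        have hfin2 : {t | I t u}.Finite := by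
          rw [← hset2]
          exact f2 u u' hne.symm ⟨x, hxu, hu'⟩
        have hsub : {t | I t u ∧ I t v} ⊆ {t | I t u} := fun t ht => ht.1
        have heq := Set.eq_of_subset_of_ncard_le hsub
          (by rw [hcard2, h2 u v huv ⟨z, hzu, hzv⟩]) hfin2
        have ht' : t ∈ {t | I t u} := htu
        rw [← heq] at ht'
        exact ht'.2
    have s4 : ∀ k z, Near I k x z → ∀ u, I x u → I z u := by
      intro k
      induction k with
      | zero =>
        intro z hz u hu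
        have hz' : x = z := hz
        rw [← hz']
        exact hu
      | succ k ih =>
        intro z hz u hu
        obtain ⟨z1, hz1, v, hz1v, hzv⟩ := hz
        have h3 : I z1 u := ih z1 hz1 u hu
        have h4 : I x v := s3 u v z1 hu h3 hz1v x hu
        exact s1 z ⟨v, h4, hzv⟩ u hu
    refine hnc fun z v => ?_
    obtain ⟨t, ht⟩ := hB v
    obtain ⟨u, hu⟩ := hA x
    obtain ⟨k, hk⟩ := hconn x t
    obtain ⟨k', hk'⟩ := hconn x z
    have h3 : I x v := s3 u v t hu (s4 k t hk u hu) ht x hu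
    exact s4 k' z hk' v h3
  -- blocks are separated
  have hsepR : ∀ u v, u ≠ v → ∃ x, I x u ∧ ¬ I x v := by
    intro u v huv
    by_contra hcon
    push Not at hcon
    obtain ⟨x, hx⟩ := hB u
    have hc : ∃ x, I x u ∧ I x v := ⟨x, hx, hcon x hx⟩
    have hset : {t | I t u ∧ I t v} = {t | I t u} := by
      ext t
      exact ⟨fun h => h.1, fun h => ⟨h, hcon t h⟩⟩
    have hcard : {t | I t u}.ncard = mu := by
      rw [← hset]
      exact h2 u v huv hc
    have hfin : {t | I t u}.Finite := by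
      rw [← hset]
      exact f2 u v huv hc
    obtain ⟨y, hy, hne⟩ := Set.exists_ne_of_one_lt_ncard
      (show 1 < {t | I t u}.ncard by rw [hcard]; omega) x
    obtain ⟨w, hxw, hyw⟩ := hsepL x y hne.symm
    by_cases huw : u = w
    · rw [← huw] at hyw
      exact hyw hy
    · have hsub : {t | I t u ∧ I t w} ⊆ {t | I t u} := fun t ht => ht.1
      have heq := Set.eq_of_subset_of_ncard_le hsub
        (by rw [hcard, h2 u w huw ⟨x, hx, hxw⟩]) hfin
      have hy' : y ∈ {t | I t u} := hy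
      rw [← heq] at hy'
      exact hyw hy'.2
  refine ⟨hconn, ?_, ?_, hsepL, hsepR⟩
  · intro x y z hxy hxz hc hall u hxu hzu
    have hsub : {u | I x u ∧ I y u} ⊆ {u | I x u ∧ I z u} :=
      fun u hu => ⟨hu.1, hall u hu.1 hu.2⟩
    have hc' : ∃ u, I x u ∧ I z u := ⟨u, hxu, hzu⟩
    have heq := Set.eq_of_subset_of_ncard_le hsub
      (by rw [h1 x y hxy hc, h1 x z hxz hc']) (f1 x z hxz hc')
    have hu' : u ∈ {u | I x u ∧ I z u} := ⟨hxu, hzu⟩
    rw [← heq] at hu'
    exact hu'.2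
  · intro k y Bl D hyB hex hall
    by_contra hcon
    have hBD : Bl ≠ D := by
      rintro rfl
      exact hcon fun x hx => hx
    have hexk : ∃ k, ∃ x, I x Bl ∧ Near I k x y := ⟨k, hex⟩
    classical
    have hmin : ∀ m, m < Nat.find hexk → ¬ ∃ x, I x Bl ∧ Near I m x y :=
      fun m hm => Nat.find_min hexk hm
    have hle : Nat.find hexk ≤ k := Nat.find_min' hexk hex
    obtain ⟨x1, hx1, hn1⟩ := Nat.find_spec hexk
    generalize Nat.find hexk = k0 at hmin hle hn1
    cases k0 with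
    | zero =>
      have h3 : x1 = y := hn1
      rw [h3] at hx1
      exact hyB hx1
    | succ m =>
      have hall' : ∀ x, I x Bl → Near I (m + 1) x y → I x D :=
        fun x hx hn => hall x hx (near_mono hA hle hn)
      have claim : ∀ p q, I p Bl → Near I m q y → ∀ C, I p C → I q C → ∀ t, I t Bl →
          Near I (m + 1) t y → I t C := by
        intro p q hp hq C hpC hqC t ht hnt
        have hqB : ¬ I q Bl := fun hh => hmin m (Nat.lt_succ_self m) ⟨q, hh, hq⟩
        have hBC : Bl ≠ C := by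
          rintro rfl
          exact hqB hqC
        have hin : ∀ s, I s C → Near I (m + 1) s y := by
          intro s hs
          have h3 := near_add (near_one.2 (show Coh I s q from ⟨C, hs, hqC⟩)) hq
          rwa [add_comm] at h3
        have hsub : {s | I s Bl ∧ I s C} ⊆ {s | I s Bl ∧ I s D} :=
          fun s hs => ⟨hs.1, hall' s hs.1 (hin s hs.2)⟩
        have hc1 : ∃ s, I s Bl ∧ I s C := ⟨p, hp, hpC⟩
        have hc2 : ∃ s, I s Bl ∧ I s D := ⟨p, hp, hall' p hp (hin p hpC)⟩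
        have heq := Set.eq_of_subset_of_ncard_le hsub
          (by rw [h2 _ _ hBC hc1, h2 _ _ hBD hc2]) (f2 _ _ hBD hc2)
        have ht' : t ∈ {s | I s Bl ∧ I s D} := ⟨ht, hall' t ht hnt⟩
        rw [← heq] at ht'
        exact ht'.2
      obtain ⟨q, hq, hcq⟩ := near_symm hn1
      have hq' : Near I m q y := near_symm hq
      have hqB : ¬ I q Bl := fun hh => hmin m (Nat.lt_succ_self m) ⟨q, hh, hq'⟩
      have hx1q : x1 ≠ q := by
        rintro rfl
        exact hqB hx1
      obtain ⟨C1, hqC1, hx1C1⟩ := hcq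
      have hBC1 : Bl ≠ C1 := by
        rintro rfl
        exact hqB hqC1
      have hc1 : ∃ s, I s Bl ∧ I s C1 := ⟨x1, hx1, hx1C1⟩
      obtain ⟨x2, hx2, hne⟩ := Set.exists_ne_of_one_lt_ncard
        (show 1 < {s | I s Bl ∧ I s C1}.ncard by rw [h2 _ _ hBC1 hc1]; omega) x1
      have hn2 : Near I (m + 1) x2 y := by
        have h3 := near_add (near_one.2 (show Coh I x2 q from ⟨C1, hx2.2, hqC1⟩)) hq'
        rwa [add_comm] at h3
      have hsub : {u | I x1 u ∧ I q u} ⊆ {u | I x1 u ∧ I x2 u} := by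
        intro u hu
        exact ⟨hu.1, claim x1 q hx1 hq' u hu.1 hu.2 x2 hx2.1 hn2⟩
      have hcA : ∃ u, I x1 u ∧ I q u := ⟨C1, hx1C1, hqC1⟩
      have hcB : ∃ u, I x1 u ∧ I x2 u := ⟨Bl, hx1, hx2.1⟩
      have heq := Set.eq_of_subset_of_ncard_le hsub
        (by rw [h1 _ _ hx1q hcA, h1 _ _ hne.symm hcB]) (f1 _ _ hne.symm hcB)
      have hB' : Bl ∈ {u | I x1 u ∧ I x2 u} := ⟨hx1, hx2.1⟩
      rw [← heq] at hB'
      exact hqB hB'.2

theorem propertyP_flag (h : HypG I) (hA : ∀ x, ∃ u, I x u) (hB : ∀ u, ∃ x, I x u) :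
    PropertyP {sameFst I, sameSnd I} := by
  intro f hid hf
  have hθ : Preserves f (sameFst I) := hf _ (by simp)
  have hφ : Preserves f (sameSnd I) := hf _ (by simp)
  choose uA huA using hA
  choose xB hxB using hB
  let a : A → A → A := fun x y => (f ⟨(x, uA x), huA x⟩ ⟨(y, uA y), huA y⟩).1.1
  let b : B → B → B := fun u v => (f ⟨(xB u, u), hxB u⟩ ⟨(xB v, v), hxB v⟩).1.2
  have ha : ∀ e e' : Flag I, (f e e').1.1 = a e.1.1 e'.1.1 :=
    fun e e' => hθ e ⟨(e.1.1, uA e.1.1), huA _⟩ e' ⟨(e'.1.1, uA e'.1.1), huA _⟩ rfl rfl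
  have hb : ∀ e e' : Flag I, (f e e').1.2 = b e.1.2 e'.1.2 :=
    fun e e' => hφ e ⟨(xB e.1.2, e.1.2), hxB _⟩ e' ⟨(xB e'.1.2, e'.1.2), hxB _⟩ rfl rfl
  have hO : Op I a b := by
    refine ⟨fun x => ?_, fun u => ?_, fun x y u v hxu hyv => ?_⟩
    · change (f _ _).1.1 = x
      rw [hid]
    · change (f _ _).1.2 = u
      rw [hid]
    · have h1 := (f ⟨(x, u), hxu⟩ ⟨(y, v), hyv⟩).2
      rwa [ha, hb] at h1
  rcases coreG h hO with ⟨h1, h2⟩ | ⟨h1, h2⟩
  · left
    intro e e'
    exact Subtype.ext (Prod.ext (by rw [ha, h1]) (by rw [hb, h2]))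
  · right
    intro e e'
    exact Subtype.ext (Prod.ext (by rw [ha, h1]) (by rw [hb, h2]))

theorem semi {lam mu : ℕ} (hl : 2 ≤ lam) (hm : 2 ≤ mu) [Nontrivial (Flag I)]
    (hA : ∀ x, ∃ u, I x u) (hB : ∀ u, ∃ x, I x u)
    (h1 : ∀ x y, x ≠ y → (∃ u, I x u ∧ I y u) → {u | I x u ∧ I y u}.ncard = lam)
    (h2 : ∀ u v, u ≠ v → (∃ x, I x u ∧ I x v) → {x | I x u ∧ I x v}.ncard = mu) :
    PropertyP {sameFst I, sameSnd I} ↔
      sameFst I ⊔ sameSnd I = ⊤ ∧ ¬ ∀ x u, I x u := by
  constructor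
  · intro hP
    refine ⟨propertyP_sup hP, fun hall => ?_⟩
    have hT := tight_of_propertyP hP
    obtain ⟨e, e', hee⟩ := exists_pair_ne (Flag I)
    by_cases hfst : e.1.1 = e'.1.1
    · have hsnd : e.1.2 ≠ e'.1.2 := fun h => hee (Subtype.ext (Prod.ext hfst h))
      obtain ⟨x, -, hx⟩ := hT.2.2 e e' hsnd
      exact hx ((meets_iff I _ _).2 (hall _ _))
    · obtain ⟨u, -, hu⟩ := hT.2.1 e e' hfst
      exact hu ((meets_iff I _ _).2 (hall _ _))
  · rintro ⟨hsup, hnc⟩
    refine propertyP_flag (hypG_of_semi hl hm h1 h2 hA hB ?_ hnc) hA hB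
    intro x y
    obtain ⟨u, hu⟩ := hA x
    obtain ⟨v, hv⟩ := hA y
    exact conn_of_sup (I := I) (fun e : Flag I => e.1.1) (fun e : Flag I => e.1.2)
      (fun e => e.2) (fun e e' h => h) (fun e e' h => h) hsup ⟨(x, u), hu⟩ ⟨(y, v), hv⟩

end Pool.Agent.Helper57.Idem
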